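import Pool.Agent.Helper35_XQ.Stmt
import Mathlib.Probability.Distributions.Gaussian.Real

/-!
Squad XQ, part A2, module FMA: the main term of the flux.
-/

set_option autoImplicit false

namespace Pool.Agent.XQ.GI.H93

open MeasureTheory Complex Filter Topology Pool.Agent.H62T Pool.Agent.H60K
open scoped ENNReal NNReal

/-! ### The change of variables -/

/-- `(D, x) ↦ (D + x, x)` -/
def shear : ℝ × ℝ ≃ᵐ ℝ × ℝ where
  toFun z := (z.1 + z.2, z.2)
  invFun z := (z.1 - z.2, z.2)
  left_inv z := by simp
  right_inv z := by simp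
  measurable_toFun := by
    show Measurable fun z : ℝ × ℝ => (z.1 + z.2, z.2)
    fun_prop
  measurable_invFun := by
    show Measurable fun z : ℝ × ℝ => (z.1 - z.2, z.2)
    fun_prop

theorem shear_mp : MeasurePreserving shear (volume : Measure (ℝ × ℝ)) volume :=
  measurePreserving_add_prod volume volume

/-- exchange of the two middle coordinates -/
def comm4 : (ℝ × ℝ) × (ℝ × ℝ) ≃ᵐ (ℝ × ℝ) × (ℝ × ℝ) where
  toFun z := ((z.1.1, z.2.1), (z.1.2, z.2.2))
  invFun z := ((z.1.1, z.2.1), (z.1.2, z.2.2))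
  left_inv z := rfl
  right_inv z := rfl
  measurable_toFun := by
    show Measurable fun z : (ℝ × ℝ) × (ℝ × ℝ) => ((z.1.1, z.2.1), (z.1.2, z.2.2))
    fun_prop
  measurable_invFun := by
    show Measurable fun z : (ℝ × ℝ) × (ℝ × ℝ) => ((z.1.1, z.2.1), (z.1.2, z.2.2))
    fun_prop

theorem comm4_mp : MeasurePreserving comm4 (volume : Measure ((ℝ × ℝ) × (ℝ × ℝ))) volume := by
  have id1 : MeasurePreserving (id : ℝ → ℝ) volume volume := MeasurePreserving.id _
  have a1 := measurePreserving_prodAssoc (volume : Measure ℝ) (volume : Measure ℝ)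
    (volume : Measure (ℝ × ℝ))
  have a2 := (measurePreserving_prodAssoc (volume : Measure ℝ) (volume : Measure ℝ)
    (volume : Measure ℝ)).symm
  have a3 := (Measure.measurePreserving_swap (μ := (volume : Measure ℝ))
    (ν := (volume : Measure ℝ))).prod id1
  have a4 := measurePreserving_prodAssoc (volume : Measure ℝ) (volume : Measure ℝ)
    (volume : Measure ℝ)
  have a5 := (measurePreserving_prodAssoc (volume : Measure ℝ) (volume : Measure ℝ)
    (volume : Measure (ℝ × ℝ))).symm
  have b2 := id1.prod a2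
  have b3 := id1.prod a3
  have b4 := id1.prod a4
  exact a5.comp (b4.comp (b3.comp (b2.comp a1)))

/-- the change of variables -/
noncomputable def EE : (ℝ × ℝ) × (ℝ × ℝ) ≃ᵐ ℂ × ℂ :=
  (shear.prodCongr shear).trans (comm4.trans
    (Complex.measurableEquivRealProd.symm.prodCongr Complex.measurableEquivRealProd.symm))

theorem EE_mp : MeasurePreserving EE volume volume := by
  have h1 : MeasurePreserving (Prod.map shear shear)
      (volume : Measure ((ℝ × ℝ) × (ℝ × ℝ))) volume := shear_mp.prod shear_mp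
  have h2 : MeasurePreserving (Prod.map Complex.measurableEquivRealProd.symm
      Complex.measurableEquivRealProd.symm) (volume : Measure ((ℝ × ℝ) × (ℝ × ℝ))) volume :=
    (Complex.volume_preserving_equiv_real_prod.symm).prod
      (Complex.volume_preserving_equiv_real_prod.symm)
  exact h2.comp (comm4_mp.comp h1)

theorem EE_apply (z : (ℝ × ℝ) × (ℝ × ℝ)) :
    EE z = ((⟨z.1.1 + z.1.2, z.2.1 + z.2.2⟩ : ℂ), (⟨z.1.2, z.2.2⟩ : ℂ)) := rfl

/-! ### Gaussian densities -/

theorem gg_eq {t : ℝ} (ht : 0 < t) (m p : ℝ) :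
    gg t (p - m) = ProbabilityTheory.gaussianPDFReal m (Real.toNNReal (2 * t)) p := by
  have h : ((Real.toNNReal (2 * t) : ℝ≥0) : ℝ) = 2 * t := Real.coe_toNNReal _ (by positivity)
  unfold gg ProbabilityTheory.gaussianPDFReal
  rw [h, div_eq_inv_mul]
  congr 2
  · congr 1
    ring
  · congr 1
    ring

theorem gg_nonneg (t p : ℝ) : 0 ≤ gg t p := by unfold gg; positivity

theorem gg_cont (t : ℝ) : Continuous (gg t) := by unfold gg; fun_prop

theorem gg_int {t : ℝ} (ht : 0 < t) : Integrable (gg t) := by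
  have h := ProbabilityTheory.integrable_gaussianPDFReal 0 (Real.toNNReal (2 * t))
  refine h.congr (Eventually.of_forall fun p => ?_)
  show _ = gg t p
  rw [← gg_eq ht 0 p, sub_zero]

theorem gg_integral {t : ℝ} (ht : 0 < t) : ∫ p, gg t p = 1 := by
  have hv : Real.toNNReal (2 * t) ≠ 0 := by
    rw [Ne, Real.toNNReal_eq_zero, not_le]; positivity
  rw [← ProbabilityTheory.integral_gaussianPDFReal_eq_one 0 hv]
  refine integral_congr_ae (Eventually.of_forall fun p => ?_)
  show gg t p = _
  rw [← gg_eq ht 0 p, sub_zero]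

theorem gg_mean {t : ℝ} (ht : 0 < t) (m : ℝ) : ∫ p, p * gg t (p - m) = m := by
  have hv : Real.toNNReal (2 * t) ≠ 0 := by
    rw [Ne, Real.toNNReal_eq_zero, not_le]; positivity
  have h := ProbabilityTheory.integral_gaussianReal_eq_integral_smul (μ := m) (f := fun x => x) hv
  rw [ProbabilityTheory.integral_id_gaussianReal] at h
  refine Eq.trans ?_ h.symm
  refine integral_congr_ae (Eventually.of_forall fun p => ?_)
  show p * gg t (p - m) = ProbabilityTheory.gaussianPDFReal m (Real.toNNReal (2 * t)) p • p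
  rw [gg_eq ht, smul_eq_mul, mul_comm]

theorem gg_int_mul {t : ℝ} (ht : 0 < t) (m : ℝ) : Integrable fun p => p * gg t (p - m) := by
  have hb : 0 < 1 / (4 * t) := by positivity
  have h1 : Integrable fun x : ℝ => x * gg t x := by
    have h := (integrable_mul_exp_neg_mul_sq hb).div_const (√(4 * Real.pi * t))
    refine h.congr (Eventually.of_forall fun p => ?_)
    show p * Real.exp (-(1 / (4 * t)) * p ^ 2) / √(4 * Real.pi * t) = p * gg t p
    unfold gg
    rw [mul_div_assoc]
    congr 3
    ring
  have h2 := h1.comp_sub_right m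
  have h3 := ((gg_int ht).comp_sub_right m).const_mul m
  refine (h2.add h3).congr (Eventually.of_forall fun p => ?_)
  show (p - m) * gg t (p - m) + m * gg t (p - m) = p * gg t (p - m)
  ring

theorem G_eq {t : ℝ} (ht : 0 < t) (p q : ℝ) : G t ⟨p, q⟩ = gg t p * gg t q := by
  have h0 : (0 : ℝ) < 4 * Real.pi * t := by positivity
  unfold G gg
  have h1 : ‖(⟨p, q⟩ : ℂ)‖ ^ 2 = p ^ 2 + q ^ 2 := by
    rw [← Complex.normSq_eq_norm_sq, Complex.normSq_apply]
    ring
  rw [h1, div_mul_div_comm, ← Real.exp_add, Real.mul_self_sqrt h0.le]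
  congr 2
  ring

/-- product of two Gaussian densities -/
theorem gg_mul {a s : ℝ} (ha : 0 < a) (hs : 0 < s) (l D : ℝ) :
    gg a D * gg s (l - D) = gg (a + s) l * gg (a * s / (a + s)) (D - a * l / (a + s)) := by
  have h0 : (0 : ℝ) < a + s := by positivity
  unfold gg
  rw [div_mul_div_comm, div_mul_div_comm, ← Real.exp_add, ← Real.exp_add,
    ← Real.sqrt_mul (by positivity), ← Real.sqrt_mul (by positivity)]
  congr 2
  · field_simp
    ring
  · field_simp

/-! ### The two factors -/

/-- the left half-line -/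
noncomputable def cc (x : ℝ) : ℝ := if x < 0 then 1 else 0

theorem cc_sub (D x : ℝ) : cc x - cc (D + x) =
    (Set.Ico (-D) 0).indicator (fun _ => (1 : ℝ)) x -
      (Set.Ico 0 (-D)).indicator (fun _ => (1 : ℝ)) x := by
  unfold cc Set.indicator
  simp only [Set.mem_Ico]
  split_ifs <;> first | (norm_num; done) | (exfalso; grind)

theorem int_Ico (p q : ℝ) : ∫ x, (Set.Ico p q).indicator (fun _ => (1 : ℝ)) x = max (q - p) 0 := by
  rw [integral_indicator measurableSet_Ico, setIntegral_const, smul_eq_mul, mul_one,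
    Measure.real, Real.volume_Ico, ENNReal.toReal_ofReal']

theorem integrable_Ico (p q : ℝ) :
    Integrable fun x => (Set.Ico p q).indicator (fun _ => (1 : ℝ)) x :=
  (integrable_indicator_iff measurableSet_Ico).2 (integrableOn_const (by simp))

theorem cc_int (D : ℝ) : ∫ x, (cc x - cc (D + x)) = D := by
  simp only [cc_sub]
  rw [integral_sub (integrable_Ico _ _) (integrable_Ico _ _), int_Ico, int_Ico]
  rcases le_total 0 D with h | h
  · rw [max_eq_left (by linarith), max_eq_right (by linarith)]; ring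
  · rw [max_eq_right (by linarith), max_eq_left (by linarith)]; ring

theorem cc_norm (D : ℝ) : ∫ x, ‖cc x - cc (D + x)‖ = |D| := by
  rcases le_total 0 D with h | h
  · have e : ∀ x, ‖cc x - cc (D + x)‖ = (Set.Ico (-D) 0).indicator (fun _ => (1 : ℝ)) x := by
      intro x
      rw [cc_sub, Set.Ico_eq_empty (show ¬ (0 : ℝ) < -D by linarith), Set.indicator_empty, sub_zero,
        Real.norm_of_nonneg]
      exact Set.indicator_nonneg (fun _ _ => zero_le_one) _
    simp only [e]
    rw [int_Ico, max_eq_left (by linarith), abs_of_nonneg h]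
    ring
  · have e : ∀ x, ‖cc x - cc (D + x)‖ = (Set.Ico 0 (-D)).indicator (fun _ => (1 : ℝ)) x := by
      intro x
      rw [cc_sub, Set.Ico_eq_empty (show ¬ (-D : ℝ) < 0 by linarith), Set.indicator_empty, zero_sub,
        norm_neg, Real.norm_of_nonneg]
      exact Set.indicator_nonneg (fun _ _ => zero_le_one) _
    simp only [e]
    rw [int_Ico, max_eq_left (by linarith), abs_of_nonpos h]
    ring

theorem cc_meas : Measurable cc := by
  unfold cc
  exact Measurable.ite measurableSet_Iio measurable_const measurable_const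

theorem hor_integrable {a s l : ℝ} (ha : 0 < a) (hs : 0 < s) :
    Integrable fun z : ℝ × ℝ => (cc z.2 - cc (z.1 + z.2)) * (gg a z.1 * gg s (l - z.1)) := by
  have hm : Measurable fun z : ℝ × ℝ =>
      (cc z.2 - cc (z.1 + z.2)) * (gg a z.1 * gg s (l - z.1)) := by
    have h1 := cc_meas
    have h2 := (gg_cont a).measurable
    have h3 := (gg_cont s).measurable
    fun_prop
  refine (integrable_prod_iff (μ := (volume : Measure ℝ)) (ν := (volume : Measure ℝ))
    hm.aestronglyMeasurable).2 ⟨Eventually.of_forall fun D => ?_, ?_⟩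
  · have h0 : Integrable fun x => cc x - cc (D + x) := by
      simp only [cc_sub]
      exact (integrable_Ico _ _).sub (integrable_Ico _ _)
    show Integrable fun x => (cc x - cc (D + x)) * (gg a D * gg s (l - D))
    exact h0.mul_const _
  · have e : (fun D : ℝ => ∫ x, ‖(cc x - cc (D + x)) * (gg a D * gg s (l - D))‖) =
        fun D => ‖D * (gg (a + s) l * gg (a * s / (a + s)) (D - a * l / (a + s)))‖ := by
      funext D
      have e1 : ∀ x, ‖(cc x - cc (D + x)) * (gg a D * gg s (l - D))‖ =
          ‖cc x - cc (D + x)‖ * ‖gg a D * gg s (l - D)‖ := fun x => norm_mul _ _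
      simp only [e1]
      rw [integral_mul_const, cc_norm, gg_mul ha hs, norm_mul D, Real.norm_eq_abs D]
    show Integrable (fun D : ℝ => ∫ x, ‖(cc x - cc (D + x)) * (gg a D * gg s (l - D))‖)
    rw [e]
    refine Integrable.norm ?_
    have h := (gg_int_mul (t := a * s / (a + s)) (by positivity) (a * l / (a + s))).const_mul
      (gg (a + s) l)
    refine h.congr (Eventually.of_forall fun D => ?_)
    show _ = _
    ring

theorem hor_integral {a s l : ℝ} (ha : 0 < a) (hs : 0 < s) :
    ∫ z : ℝ × ℝ, (cc z.2 - cc (z.1 + z.2)) * (gg a z.1 * gg s (l - z.1)) =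
      a / (a + s) * l * gg (a + s) l := by
  rw [Measure.volume_eq_prod, integral_prod _ (hor_integrable ha hs)]
  have e : ∀ D : ℝ, (∫ x, (cc x - cc (D + x)) * (gg a D * gg s (l - D))) =
      gg (a + s) l * (D * gg (a * s / (a + s)) (D - a * l / (a + s))) := by
    intro D
    rw [integral_mul_const, cc_int, gg_mul ha hs]
    ring
  simp only [e]
  rw [integral_const_mul, gg_mean (by positivity)]
  ring

theorem ver_slice {s : ℝ} (hs : 0 < s) (D k : ℝ) :
    Integrable (fun y => gg s (D + 2 * y - k)) ∧ ∫ y, gg s (D + 2 * y - k) = 1 / 2 := by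
  have h1 : Integrable fun y => gg s (y + (D - k)) := (gg_int hs).comp_add_right _
  have h2 : ∫ y, gg s (y + (D - k)) = 1 := by
    rw [integral_add_right_eq_self (fun y => gg s y), gg_integral hs]
  have e : (fun y => gg s (D + 2 * y - k)) = fun y => (fun z => gg s (z + (D - k))) (2 * y) := by
    funext y
    show gg s _ = gg s _
    congr 1
    ring
  rw [e]
  refine ⟨h1.comp_mul_left' (by norm_num), ?_⟩
  rw [Measure.integral_comp_mul_left (fun z => gg s (z + (D - k))) 2, h2]
  norm_num

theorem ver_integrable {a s k : ℝ} (ha : 0 < a) (hs : 0 < s) :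
    Integrable fun z : ℝ × ℝ => gg a z.1 * gg s (z.1 + 2 * z.2 - k) := by
  have hm : Measurable fun z : ℝ × ℝ => gg a z.1 * gg s (z.1 + 2 * z.2 - k) := by
    have h2 := (gg_cont a).measurable
    have h3 := (gg_cont s).measurable
    fun_prop
  refine (integrable_prod_iff (μ := (volume : Measure ℝ)) (ν := (volume : Measure ℝ))
    hm.aestronglyMeasurable).2 ⟨Eventually.of_forall fun D => ?_, ?_⟩
  · show Integrable fun y => gg a D * gg s (D + 2 * y - k)
    exact (ver_slice hs D k).1.const_mul _
  · have e : (fun D : ℝ => ∫ y, ‖gg a D * gg s (D + 2 * y - k)‖) = fun D => gg a D * (1 / 2) := by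
      funext D
      have : ∀ y, ‖gg a D * gg s (D + 2 * y - k)‖ = gg a D * gg s (D + 2 * y - k) := fun y =>
        Real.norm_of_nonneg (mul_nonneg (gg_nonneg _ _) (gg_nonneg _ _))
      simp only [this]
      rw [integral_const_mul, (ver_slice hs D k).2]
    show Integrable (fun D : ℝ => ∫ y, ‖gg a D * gg s (D + 2 * y - k)‖)
    rw [e]
    exact (gg_int ha).mul_const _

theorem ver_integral {a s k : ℝ} (ha : 0 < a) (hs : 0 < s) :
    ∫ z : ℝ × ℝ, gg a z.1 * gg s (z.1 + 2 * z.2 - k) = 1 / 2 := by
  rw [Measure.volume_eq_prod, integral_prod _ (ver_integrable ha hs)]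
  have e : ∀ D : ℝ, (∫ y, gg a D * gg s (D + 2 * y - k)) = gg a D * (1 / 2) := by
    intro D
    rw [integral_const_mul, (ver_slice hs D k).2]
  simp only [e]
  rw [integral_mul_const, gg_integral ha]
  norm_num

/-- FMA -/
theorem fma : FmaStatement := by
  intro α b a s _ _ _ ha hs
  set F : ℂ × ℂ → ℝ := fun p => (c0 p.2 - c0 p.1) * G a (p.1 - p.2) * G s (p.2 - g0 α b p.1)
    with hF
  set f : ℝ × ℝ → ℝ := fun z => (cc z.2 - cc (z.1 + z.2)) * (gg a z.1 * gg s (lo α b - z.1))
    with hf
  set g : ℝ × ℝ → ℝ := fun z =>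
    gg a z.1 * gg s (z.1 + 2 * z.2 - 2 * (b * Real.sin α * Real.cos α)) with hg
  have key : ∀ z, F (EE z) = f z.1 * g z.2 := by
    rintro ⟨⟨D, x⟩, ⟨D', y⟩⟩
    rw [EE_apply]
    simp only [hF, hf, hg]
    have e1 : (⟨D + x, D' + y⟩ : ℂ) - ⟨x, y⟩ = ⟨D, D'⟩ := by
      apply Complex.ext <;> simp
    have e2 : (⟨x, y⟩ : ℂ) - g0 α b ⟨D + x, D' + y⟩ =
        ⟨lo α b - D, D' + 2 * y - 2 * (b * Real.sin α * Real.cos α)⟩ := by
      unfold g0
      apply Complex.ext
      · simp; ring
      · simp; ring
    rw [e1, e2, G_eq ha, G_eq hs]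
    unfold c0 cc
    simp only
    ring
  have hi : Integrable fun z : (ℝ × ℝ) × (ℝ × ℝ) => f z.1 * g z.2 :=
    Integrable.mul_prod (hor_integrable ha hs) (ver_integrable ha hs)
  have hi' : Integrable (F ∘ EE) := by
    refine hi.congr (Eventually.of_forall fun z => ?_)
    exact (key z).symm
  refine ⟨(EE_mp.integrable_comp_emb EE.measurableEmbedding).1 hi', ?_⟩
  show ∫ p, F p = _
  rw [← EE_mp.integral_comp EE.measurableEmbedding F]
  simp only [key]
  have h := integral_prod_mul (μ := (volume : Measure (ℝ × ℝ))) (ν := (volume : Measure (ℝ × ℝ)))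
    f g
  rw [← Measure.volume_eq_prod] at h
  rw [h, hor_integral ha hs, ver_integral ha hs]
  ring

end Pool.Agent.XQ.GI.H93
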