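import Pool.Agent.Helper16_XQ.StmtG
import Pool.Agent.Helper40_AEU.Cg
import Pool.Agent.Helper40_AEU.Ell
import Pool.Agent.Helper69_AEU.Tools
import Pool.Agent.Helper69_AEU.Lam
import Pool.Agent.Helper72_AEU.ACT

/-!
Squad XQ, part G, module FNX: the inductive step.
-/

set_option autoImplicit false

namespace Pool.Agent.XQ.H93

open MeasureTheory Complex Filter Topology Pool.Agent.H62T
open Pool.Agent.H16F (Sublin)
open Pool.Agent.AEU

/-! ### The empty family of torn bodies -/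

theorem rlx_empty (X : Finset HP) (c : Finset HP → HP → ℝ) (S : Finset HP) : rlx X ∅ c S = X := by
  unfold rlx er
  simp

theorem not_TB_empty (c : Finset HP → HP → ℝ) (S : Finset HP) : ¬ TB ∅ c S := by
  rintro ⟨F, hF, _⟩
  simp at hF

/-! ### Isometries and kinds -/

theorem vx_mv (g : Iso2) {s t : HP} (hst : dt s.1 t.1 ≠ 0) :
    vx (mv g s) (mv g t) = g (vx s t) := by
  obtain ⟨a1, a2, a3, a4, a5, a6, a7, a8, a9, a10, _⟩ := Pool.Agent.AEU.H72.act
  have e1 : ip s.1 (vx s t) = s.2 := by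
    rw [Pool.Agent.AEU.H40.ip_vx, Pool.Agent.AEU.H40.dt_self, Pool.Agent.AEU.H40.dt_swap t.1 s.1]
    field_simp
    ring
  have e2 : ip t.1 (vx s t) = t.2 := by
    rw [Pool.Agent.AEU.H40.ip_vx, Pool.Agent.AEU.H40.dt_self]
    field_simp
    ring
  have k1 := a6 g (vx s t) s
  have k2 := a6 g (vx s t) t
  have k3 := a9 g s t
  rw [e1, sub_self, sub_eq_zero] at k1
  rw [e2, sub_self, sub_eq_zero] at k2
  have hdet : dt (mv g s).1 (mv g t).1 ≠ 0 := by
    intro h0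
    rw [h0, abs_zero] at k3
    exact hst (abs_eq_zero.1 k3.symm)
  generalize mv g s = s' at *
  generalize mv g t = t' at *
  generalize g (vx s t) = x at *
  have hdc : (dt s'.1 t'.1 : ℂ) ≠ 0 := by exact_mod_cast hdet
  symm
  unfold vx
  rw [eq_div_iff hdc, ← k1, ← k2]
  apply Complex.ext
  · simp [ip, dt]; ring
  · simp [ip, dt]; ring

theorem alt_mv (g : Iso2) {i j : HP} (q : HP) (hst : dt i.1 j.1 ≠ 0) :
    (mv g q).2 - ip (mv g q).1 (vx (mv g i) (mv g j)) = q.2 - ip q.1 (vx i j) := by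
  have h := Pool.Agent.AEU.H72.act.2.2.2.2.2.1 g (vx i j) q
  rw [vx_mv g hst]
  linarith

theorem dt_ne_zero_of_lt {a b : ℂ} (ha : ‖a‖ = 1) (hb : ‖b‖ = 1) (h : |ip a b| < 1) :
    dt a b ≠ 0 := by
  intro h0
  have h1 := Pool.Agent.AEU.H40.dt_sq a b ha hb
  rw [h0] at h1
  have h2 : ip a b ^ 2 < 1 := by
    rw [← sq_abs]; nlinarith [abs_nonneg (ip a b)]
  nlinarith

theorem image3 (g : Iso2) (i j k : HP) :
    ({i, j, k} : Finset HP).image (mv g) = {mv g i, mv g j, mv g k} := by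
  ext x; simp only [Finset.mem_image, Finset.mem_insert, Finset.mem_singleton]
  constructor
  · rintro ⟨y, (rfl | rfl | rfl), rfl⟩ <;> simp
  · rintro (rfl | rfl | rfl)
    exacts [⟨i, by simp, rfl⟩, ⟨j, by simp, rfl⟩, ⟨k, by simp, rfl⟩]

theorem mvInj (g : Iso2) : Function.Injective (mv g) :=
  Pool.Agent.AEU.H69.mv_inj Pool.Agent.AEU.H72.act g

theorem mvInv (g : Iso2) (s : HP) : mv g (mv g⁻¹ s) = s :=
  Pool.Agent.AEU.H69.mv_inv Pool.Agent.AEU.H72.act g s

theorem mvInv' (g : Iso2) (s : HP) : mv g⁻¹ (mv g s) = s :=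
  Pool.Agent.AEU.H69.mv_inv' Pool.Agent.AEU.H72.act g s

theorem mbInv' (g : Iso2) (h : ℂ → ℝ) : mb g⁻¹ (mb g h) = h :=
  Pool.Agent.AEU.H69.mb_inv' Pool.Agent.AEU.H72.act g h

theorem ipMv (g : Iso2) (s t : HP) : ip (mv g s).1 (mv g t).1 = ip s.1 t.1 :=
  Pool.Agent.AEU.H72.act.2.2.2.2.2.2.2.1 g s t

theorem nMv (g : Iso2) (s : HP) : ‖(mv g s).1‖ = ‖s.1‖ :=
  Pool.Agent.AEU.H72.act.2.2.2.2.2.2.2.2.2.1 g s

theorem sMb (g : Iso2) {h : ℂ → ℝ} (hs : Sublin h) : Sublin (mb g h) :=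
  Pool.Agent.AEU.H72.act.2.2.2.2.2.2.2.2.2.2.1 g h hs

theorem lMb (g : Iso2) {h : ℂ → ℝ} (hs : Sublin h) : lam (mb g h) = lam h :=
  Pool.Agent.AEU.H69.lamS.2.2.2 g h hs

theorem image_inv (g : Iso2) (S : Finset HP) : (S.image (mv g)).image (mv g⁻¹) = S := by
  rw [Finset.image_image]
  conv_rhs => rw [← Finset.image_id (s := S)]
  apply Finset.image_congr
  intro s _
  simp [mvInv']

theorem image_inv' (g : Iso2) (S : Finset HP) : (S.image (mv g⁻¹)).image (mv g) = S := by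
  rw [Finset.image_image]
  conv_rhs => rw [← Finset.image_id (s := S)]
  apply Finset.image_congr
  intro s _
  simp [mvInv]

theorem card_image (g : Iso2) (S : Finset HP) : (S.image (mv g)).card = S.card :=
  Finset.card_image_of_injective _ (mvInj g)

theorem ne_of_card {i j k : HP} (h : ({i, j, k} : Finset HP).card = 3) : i ≠ j ∧ i ≠ k ∧ j ≠ k := by
  refine ⟨?_, ?_, ?_⟩
  · rintro rfl
    have h1 : ({i, i, k} : Finset HP) = {i, k} := by simp
    rw [h1] at h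
    have := Finset.card_le_two (a := i) (b := k)
    omega
  · rintro rfl
    have h1 : ({i, j, i} : Finset HP) = {i, j} := by
      ext x; simp only [Finset.mem_insert, Finset.mem_singleton]; tauto
    rw [h1] at h
    have := Finset.card_le_two (a := i) (b := j)
    omega
  · rintro rfl
    have h1 : ({i, j, j} : Finset HP) = {i, j} := by simp
    rw [h1] at h
    have := Finset.card_le_two (a := i) (b := j)
    omega

theorem isA_dt {i j k : HP} {L c c' : ℝ} (h : IsA i j k L c c') :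
    dt i.1 j.1 ≠ 0 ∧ dt j.1 k.1 ≠ 0 := by
  have := h.or
  constructor
  · intro h0; rw [h0, zero_mul] at this; exact lt_irrefl _ this
  · intro h0; rw [h0, mul_zero] at this; exact lt_irrefl _ this

theorem isA_mv (g : Iso2) {i j k : HP} {L c c' : ℝ} (h : IsA i j k L c c') :
    IsA (mv g i) (mv g j) (mv g k) L c c' := by
  obtain ⟨d1, d2⟩ := isA_dt h
  refine ⟨by rw [nMv]; exact h.ui, by rw [nMv]; exact h.uj, by rw [nMv]; exact h.uk,
    by rw [ipMv]; exact h.ij, by rw [ipMv]; exact h.jk, h.pos, h.pos', h.lt, h.lt', ?_, ?_, ?_, ?_⟩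
  · have h1 := h.or
    rw [Pool.Agent.AEU.H40.dt_mul_dt _ _ _ (by rw [nMv]; exact h.uj), ipMv, ipMv, ipMv,
      ← Pool.Agent.AEU.H40.dt_mul_dt _ _ _ h.uj]
    exact h1
  · have h1 := h.len
    unfold eA at h1 ⊢
    rw [vx_mv g d1, vx_mv g d2, ← dist_eq_norm, g.dist_map, dist_eq_norm]
    exact h1
  · have h1 := h.in₁
    have h2 := alt_mv g k d1
    linarith
  · have h1 := h.in₂
    have h2 := alt_mv g i d2
    linarith

theorem isB_mv (g : Iso2) {i j q : HP} {L c a b : ℝ} (h : IsB i j q L c a b) :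
    IsB (mv g i) (mv g j) (mv g q) L c a b := by
  have d1 : dt i.1 j.1 ≠ 0 := dt_ne_zero_of_lt h.ui h.uj (by rw [h.ij]; exact h.lt)
  refine ⟨by rw [nMv]; exact h.ui, by rw [nMv]; exact h.uj, by rw [nMv]; exact h.uq,
    by rw [ipMv]; exact h.ij, by rw [ipMv]; exact h.iq, by rw [ipMv]; exact h.jq, h.lt, h.lta,
    h.ltb, h.nega, h.negb, ?_⟩
  rw [alt_mv g q d1]
  exact h.len

theorem kA_mv (g : Iso2) {S : Finset HP} {L c c' : ℝ} (h : KA S L c c') :
    KA (S.image (mv g)) L c c' := by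
  obtain ⟨i, j, k, e, hc, hA⟩ := h
  refine ⟨mv g i, mv g j, mv g k, by rw [e, image3], by rw [card_image]; exact hc, isA_mv g hA⟩

theorem kB_mv (g : Iso2) {S : Finset HP} {L c a b : ℝ} (h : KB S L c a b) :
    KB (S.image (mv g)) L c a b := by
  obtain ⟨i, j, k, e, hc, hB, hp⟩ := h
  exact ⟨mv g i, mv g j, mv g k, by rw [e, image3], by rw [card_image]; exact hc, isB_mv g hB, hp⟩

theorem acute_dt {S : Finset HP} (hc : S.card = 3) (hu : ∀ s ∈ S, ‖s.1‖ = 1) (ha : Acute S)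
    {i j q : HP} (e : S = {i, j, q}) : dt i.1 j.1 ≠ 0 := by
  subst e
  obtain ⟨h1, h2, h3⟩ := ne_of_card hc
  rcases Pool.Agent.AEU.H40.same_sign (hu i (by simp)) (hu j (by simp)) (hu q (by simp))
    (ha i (by simp) j (by simp) h1) (ha i (by simp) q (by simp) h2)
    (ha j (by simp) q (by simp) h3) with h | h
  · exact h.1.ne'
  · exact h.1.ne

theorem kGh_mv (g : Iso2) {S : Finset HP} {L : ℝ} (h : KGh S L) : KGh (S.image (mv g)) L := by
  obtain ⟨e1, e2, e3⟩ := (Pool.Agent.AEU.H40.ell Pool.Agent.AEU.H72.act).2.2.2 g S h.card h.unit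
    h.acute
  refine ⟨e3, ?_, e2, by rw [e1]; exact h.len, ?_⟩
  · intro s hs
    obtain ⟨t, ht, rfl⟩ := Finset.mem_image.1 hs
    rw [nMv]; exact h.unit t ht
  · intro i j q hS
    have e : S = {mv g⁻¹ i, mv g⁻¹ j, mv g⁻¹ q} := by
      rw [← image3, ← hS, image_inv]
    have h1 := h.alt _ _ _ e
    have h2 := alt_mv g (mv g⁻¹ q) (acute_dt h.card h.unit h.acute e)
    rw [mvInv, mvInv, mvInv] at h2
    rw [h2]; exact h1

theorem kA_not_old {S : Finset HP} {L c c' : ℝ} (h : KA S L c c') : ¬ Old S L := by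
  rintro ho
  obtain ⟨i, j, k, e, hc, hA⟩ := h
  subst e
  have h1 := ho.acute i (by simp) j (by simp) (ne_of_card hc).1
  rw [hA.ij] at h1
  exact lt_asymm h1 hA.pos

theorem kB_not_old {S : Finset HP} {L c a b : ℝ} (h : KB S L c a b) : ¬ Old S L := by
  rintro ho
  obtain ⟨i, j, k, e, hc, hB, hp⟩ := h
  subst e
  have h1 := ho.acute i (by simp) j (by simp) (ne_of_card hc).1
  rw [hB.ij] at h1
  exact lt_asymm h1 hp

theorem kGh_not_old {S : Finset HP} {L : ℝ} (h : KGh S L) : ¬ Old S L := by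
  rintro ho
  have := ho.lt
  rw [h.len] at this
  exact lt_irrefl _ this

/-- congruent triples from the same data -/
theorem cong_A {S S' : Finset HP} {L c c' : ℝ} (h : KA S L c c') (h' : KA S' L c c') :
    ∃ g : Iso2, S.image (mv g) = S' := by
  obtain ⟨i, j, k, rfl, _, hA⟩ := h
  obtain ⟨i', j', k', rfl, _, hA'⟩ := h'
  obtain ⟨g, e1, e2, e3⟩ := Pool.Agent.AEU.H40.cga _ _ _ _ _ _ _ _ _ hA hA'
  exact ⟨g, by rw [image3, e1, e2, e3]⟩

theorem cong_B {i j q i' j' q' : HP} {L c a b : ℝ} (h : IsB i j q L c a b)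
    (h' : IsB i' j' q' L c a b) :
    ∃ g : Iso2, ({i, j, q} : Finset HP).image (mv g) = {i', j', q'} := by
  obtain ⟨g, e1, e2, e3⟩ := Pool.Agent.AEU.H40.cgb _ _ _ _ _ _ _ _ _ _ h h'
  exact ⟨g, by rw [image3, e1, e2, e3]⟩

/-! ### Touched sides -/

theorem mem_touch {P : Finset HP} {h : ℂ → ℝ} {s : HP} : s ∈ touch P h ↔ s ∈ P ∧ h s.1 = s.2 :=
  Pool.Agent.AEU.H69.mem_touch

theorem touch_sub (P : Finset HP) (h : ℂ → ℝ) : touch P h ⊆ P := fun _ hs => (mem_touch.1 hs).1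

theorem mb_touch (g : Iso2) {h : ℂ → ℝ} {s : HP} (hs : h s.1 = s.2) :
    mb g h (mv g s).1 = (mv g s).2 := by
  have := Pool.Agent.AEU.H72.act.2.2.2.2.1 g h s
  rw [hs, sub_self] at this
  linarith

/-- the image of touched sides is touched -/
theorem image_touch (g : Iso2) {X Y S : Finset HP} {h : ℂ → ℝ} (hS : S ⊆ touch X h)
    (hY : ∀ s ∈ S, mv g s ∈ Y) : S.image (mv g) ⊆ touch Y (mb g h) := by
  intro t ht
  obtain ⟨s, hs, rfl⟩ := Finset.mem_image.1 ht
  exact mem_touch.2 ⟨hY s hs, mb_touch g (mem_touch.1 (hS hs)).2⟩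

/-- unmatched nonparallel triples touched by a body of length at most `L` -/
structure InN (X Y : Finset HP) (L : ℝ) (S : Finset HP) : Prop where
  sub : S ⊆ X
  card : S.card = 3
  np : Np S
  le : Le X S L
  nm : ¬ MTr X Y L S

theorem inN_iff {X Y : Finset HP} {L : ℝ} {S : Finset HP} : InN X Y L S ↔
    (S ∈ X.powersetCard 3 ∧ Np S ∧ Le X S L ∧ ¬ MTr X Y L S) := by
  rw [Finset.mem_powersetCard]
  exact ⟨fun h => ⟨⟨h.sub, h.card⟩, h.np, h.le, h.nm⟩,
    fun h => ⟨h.1.1, h.1.2, h.2.1, h.2.2.1, h.2.2.2⟩⟩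

section half

variable {X Y : Finset HP} {L : ℝ} {c : Finset HP → HP → ℝ} {K : Finset HP → ℂ → ℝ}

/-- special bodies of length `L` with four contacts are matched -/
theorem four (H : Half X Y L ∅ c K) {h : ℂ → ℝ} (sp : Special X h) (hl : lam h = L)
    (h4 : 4 ≤ (touch X h).card) : ∃ g, Mat X Y g h := by
  by_cases hu : Unl X Y h
  · have := (H.t' h hu hl h4).1
    simp at this
  · exact H.lm h sp hl h4 hu

/-- a special body which is short, or of length `L` with four contacts, makes a triple matched -/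
theorem mtr_of (H : Half X Y L ∅ c K) {h : ℂ → ℝ} {S : Finset HP} (sp : Special X h)
    (hS : S ⊆ touch X h) (hc : S.card = 3) (hl : lam h < L ∨ (lam h = L ∧ 4 ≤ (touch X h).card)) :
    MTr X Y L S := by
  obtain ⟨g, hg⟩ : ∃ g, Mat X Y g h := by
    rcases hl with hl | ⟨hl, h4⟩
    · exact H.env.all h sp hl
    · exact four H sp hl h4
  exact ⟨hS.trans (touch_sub X h), hc, h, g, sp, hg, hS, hl⟩

/-- a special body of length at most `L` touching an unmatched triple -/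
theorem special_N (H : Half X Y L ∅ c K) {h : ℂ → ℝ} {S : Finset HP} (sp : Special X h)
    (hS : S ⊆ touch X h) (hc : S.card = 3) (nm : ¬ MTr X Y L S) :
    L ≤ lam h ∧ (lam h = L → (touch X h).card = 3) := by
  constructor
  · by_contra hlt
    exact nm (mtr_of H sp hS hc (Or.inl (not_le.1 hlt)))
  · intro hl
    by_contra h3
    have h4 : 4 ≤ (touch X h).card := by
      have := sp.three
      omega
    exact nm (mtr_of H sp hS hc (Or.inr ⟨hl, h4⟩))

/-- the kinds of a triple which is the set of touched sides of a special body of length `L` -/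
theorem not_old (hcl3 : Cl3Statement) (htax : TaxStatement) (htbx : TbxStatement)
    (H : Half X Y L ∅ c K) {h : ℂ → ℝ} (sp : Special X h) (hl : lam h = L)
    (hc : (touch X h).card = 3) (nm : ¬ MTr X Y L (touch X h)) :
    ¬ Old (touch X h) L ∧ ¬ KGh (touch X h) L := by
  have hmin : ∀ h', Special X h' → touch X h ⊆ touch X h' → lam h ≤ lam h' := by
    intro h' sp' hs
    rw [hl]
    exact (special_N H sp' hs hc nm).1
  have pgX := H.env.pg
  rcases hcl3 X pgX h sp hc hmin with ⟨i, j, k, v, w, hA⟩ | ⟨i, j, q, v, d, hB⟩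
  · obtain ⟨_, ht, hij, _, _⟩ := htax X pgX _ _ _ _ _ _ hA
    have key : ∀ ha : Acute (touch X h), False := by
      intro ha
      have h1 := ha i (by rw [ht]; simp) j (by rw [ht]; simp) hij
      have h2 := hA.obt
      linarith
    exact ⟨fun ho => key ho.acute, fun ho => key ho.acute⟩
  · obtain ⟨_, ht, _, _, _, hv, hd, _⟩ := htbx X pgX _ _ _ _ _ _ hB
    have hq : ip q.1 q.1 = 1 := by
      have h1 := pgX.unit q hB.qP
      have h2 := Pool.Agent.AEU.H40.normSq_one h1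
      unfold ip; nlinarith
    have hfoot := hB.foot
    rw [Pool.Agent.AEU.H72.ip_add, Pool.Agent.AEU.H72.ip_smul, hq] at hfoot
    have key : ∀ ha : (∀ i j q, touch X h = {i, j, q} → L / 2 < q.2 - ip q.1 (vx i j)), False := by
      intro ha
      have h1 := ha i j q ht
      rw [← hv] at h1
      linarith
    exact ⟨fun ho => key ho.alt, fun ho => key ho.alt⟩

/-- bodies touching the three lines of an unmatched triple fit -/
theorem place (hnlc : NlcStatement) (hexx : ExxStatement) (H : Half X Y L ∅ c K) {S : Finset HP}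
    (hS : InN X Y L S) {h : ℂ → ℝ} (hs : Sublin h) (ht : ∀ s ∈ S, h s.1 = s.2)
    (hl : lam h ≤ L) : Fits X h ∧ touch X h = S := by
  obtain ⟨h1, _⟩ := hnlc X Y L ∅ c K H S hS.sub hS.card hS.np hS.le hS.nm (not_TB_empty c S)
  rw [rlx_empty] at h1
  obtain ⟨δ, hδ, h2⟩ := hexx X H.env.pg.unit S L hS.sub hS.card hS.np hS.le
    (fun h sh fh th lh => (h1 h sh fh th lh).2)
  exact h2 h hs ht (by linarith)

/-- a body touching an unmatched triple only is matched by an isometry onto an unmatched triple -/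
theorem mat_of (hnlc : NlcStatement) (hexx : ExxStatement) {c' : Finset HP → HP → ℝ}
    {K' : Finset HP → ℂ → ℝ} (H' : Half Y X L ∅ c' K') {h : ℂ → ℝ} (hs : Sublin h)
    (hf : Fits X h) (hl : lam h ≤ L) {g : Iso2} (hN : InN Y X L ((touch X h).image (mv g))) :
    Mat X Y g h := by
  have hpl := place hnlc hexx H' hN (sMb g hs) (by
    intro s hs'
    obtain ⟨t, ht, rfl⟩ := Finset.mem_image.1 hs'
    exact mb_touch g (mem_touch.1 ht).2) (by rw [lMb g hs]; exact hl)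
  refine ⟨hf, hpl.1, ?_, ?_⟩
  · intro s hs'
    exact hN.sub (Finset.mem_image_of_mem _ hs')
  · intro s hs'
    rw [hpl.2] at hs'
    obtain ⟨t, ht, rfl⟩ := Finset.mem_image.1 hs'
    rw [mvInv']
    exact touch_sub X h ht

/-- the ghost property of an unmatched triple touched by a short body -/
theorem ghost_of (H : Half X Y L ∅ c K) {S : Finset HP} (hN : InN X Y L S) (hlt : Lt X S L) :
    Ghost X S := by
  obtain ⟨h, sh, fh, th, lh⟩ := hlt
  refine ⟨hN.sub, hN.card, h, sh, fh, th, ?_⟩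
  intro h' sp' th'
  exact lt_of_lt_of_le lh (special_N H sp' th' hN.card hN.nm).1

/-- ghosts of length `L` -/
theorem ghost_L (hghx : GhxStatement) (hnkx : NkxStatement) (H : Half X Y L ∅ c K)
    (S : Finset HP) :
    (S ∈ X.powersetCard 3 ∧ Ghost X S ∧ ell S = L) ↔ (InN X Y L S ∧ KGh S L) := by
  constructor
  · rintro ⟨hm, hg, hl⟩
    obtain ⟨_, hnp, _, h₀, s₀, f₀, t₀, l₀, hmin⟩ := hghx X H.env.pg S hg
    have hN : InN X Y L S := by
      refine ⟨hg.1, hg.2.1, hnp, ⟨h₀, s₀, f₀, t₀.ge, by rw [l₀, hl]⟩, ?_⟩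
      rintro ⟨_, _, h', g, sp', _, th', hl'⟩
      obtain ⟨_, _, h1, s1, f1, t1, hh⟩ := hg
      have e1 := hh h' sp' th'
      have e2 := hmin h1 s1 f1 t1
      rcases hl' with hl' | ⟨hl', _⟩ <;> linarith
    refine ⟨hN, ?_⟩
    exact ((hnkx X Y L ∅ c K H S hN.sub hN.card hN.np hN.le hN.nm (not_TB_empty c S)).2.2.2).1
      ⟨hg, hl⟩
  · rintro ⟨hN, hk⟩
    obtain ⟨hg, hl⟩ := ((hnkx X Y L ∅ c K H S hN.sub hN.card hN.np hN.le hN.nm
      (not_TB_empty c S)).2.2.2).2 hk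
    exact ⟨Finset.mem_powersetCard.2 ⟨hN.sub, hN.card⟩, hg, hl⟩

/-- a short acute unmatched triple is touched by a short body -/
theorem lt_of_acute (hghx : GhxStatement) (hnkx : NkxStatement) (H : Half X Y L ∅ c K)
    {S : Finset HP} (hN : InN X Y L S) (ha : Acute S) (hl : ell S < L) : Lt X S L := by
  obtain ⟨hg, _⟩ := ((hnkx X Y L ∅ c K H S hN.sub hN.card hN.np hN.le hN.nm
    (not_TB_empty c S)).2.2.1).2 ⟨ha, hl⟩
  obtain ⟨_, _, _, h₀, s₀, f₀, t₀, l₀, _⟩ := hghx X H.env.pg S hg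
  exact ⟨h₀, s₀, f₀, t₀.ge, by rw [l₀]; exact hl⟩

end half

/-! ### The context without torn bodies -/

section main

variable {P Q : Finset HP} {L : ℝ} {cP cQ : Finset HP → HP → ℝ} {KP KQ : Finset HP → ℂ → ℝ}

theorem half_P (hevr : EvrStatement) (hlmx : LmxStatement) (C : Ctx P Q L ∅ ∅ cP cQ KP KQ) :
    Half P Q L ∅ cP KP where
  env := hevr P Q L C.gx.gen.pg C.gx.gen.g1 C.pq C.hyp
  L0 := C.L0
  c4 := C.c4
  t := by intro F hF; simp at hF
  t' := C.tP'
  lm := (hlmx P Q L C.hyp C.gx C.pq).1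

theorem half_Q (hevr : EvrStatement) (hlmx : LmxStatement) (C : Ctx P Q L ∅ ∅ cP cQ KP KQ) :
    Half Q P L ∅ cQ KQ where
  env := (hevr P Q L C.gx.gen.pg C.gx.gen.g1 C.pq C.hyp).symm
  L0 := C.L0
  c4 := C.c4'
  t := by intro F hF; simp at hF
  t' := C.tQ'
  lm := (hlmx P Q L C.hyp C.gx C.pq).2

theorem rl_P (hrlx : RlxStatement) (C : Ctx P Q L ∅ ∅ cP cQ KP KQ) {S : Finset HP}
    (hS : MTr P Q L S) : ∃ g : Iso2, MTr Q P L (S.image (mv g)) ∧
    (∀ g', (∃ h, Special P h ∧ Mat P Q g' h ∧ S ⊆ touch P h ∧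
      (lam h < L ∨ (lam h = L ∧ 4 ≤ (touch P h).card))) → g' = g) ∧
    ∃ δ > 0, (∀ h, Sublin h → Fits P h → S ⊆ touch P h → lam h < L + δ → Mat P Q g h) ∧
    ∀ h, Sublin h → Fits Q h → S.image (mv g) ⊆ touch Q h → lam h < L + δ → Mat Q P g⁻¹ h := by
  have h := hrlx P Q L ∅ ∅ cP cQ KP KQ C S hS
  simpa only [rlx_empty] using h

theorem rl_Q (hrlx : RlxStatement) (C : Ctx P Q L ∅ ∅ cP cQ KP KQ) {S : Finset HP}
    (hS : MTr Q P L S) : ∃ g : Iso2, MTr P Q L (S.image (mv g)) ∧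
    ∃ δ > 0, ∀ h, Sublin h → Fits Q h → S ⊆ touch Q h → lam h < L + δ → Mat Q P g h := by
  obtain ⟨hsub, hc, h, g, sp, M, th, hl⟩ := hS
  obtain ⟨M', tM, sM⟩ := Pool.Agent.AEU.H69.msy Pool.Agent.AEU.H72.act Q P g h M
  have tI : S.image (mv g) ⊆ touch P (mb g h) := by
    rw [tM]; exact Finset.image_subset_image th
  have hm : MTr P Q L (S.image (mv g)) := by
    refine ⟨tI.trans (touch_sub _ _), by rw [card_image]; exact hc, mb g h, g⁻¹, sM sp, M', tI, ?_⟩
    rw [lMb g sp.sub, tM, card_image]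
    exact hl
  obtain ⟨g₁, h1, h2, δ, hδ, h3, h4⟩ := rl_P hrlx C hm
  have e : g⁻¹ = g₁ := by
    refine h2 _ ⟨mb g h, sM sp, M', tI, ?_⟩
    rw [lMb g sp.sub, tM, card_image]
    exact hl
  subst e
  rw [image_inv, inv_inv] at h4
  exact ⟨g, hm, δ, hδ, h4⟩

theorem np_P (C : Ctx P Q L ∅ ∅ cP cQ KP KQ) {S : Finset HP} (hS : S ⊆ P) : Np S := by
  intro s hs t ht hst
  exact dt_ne_zero_of_lt (C.gx.gen.pg.unit s (hS hs)) (C.gx.gen.pg.unit t (hS ht))
    (C.gx.gen.g1.lt1 s (hS hs) t (hS ht) hst)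

theorem np_image (g : Iso2) {S : Finset HP} (h : Np S) : Np (S.image (mv g)) := by
  intro s' hs' t' ht' hst
  obtain ⟨s, hs, rfl⟩ := Finset.mem_image.1 hs'
  obtain ⟨t, ht, rfl⟩ := Finset.mem_image.1 ht'
  have h1 := h s hs t ht (fun e => hst (by rw [e]))
  intro h0
  have h2 := Pool.Agent.AEU.H72.act.2.2.2.2.2.2.2.2.1 g s t
  rw [h0, abs_zero] at h2
  exact h1 (abs_eq_zero.1 h2.symm)

variable {NP NQ : Finset (Finset HP)}

theorem m1 (hevr : EvrStatement) (hlmx : LmxStatement) (hrlx : RlxStatement)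
    (hcl3 : Cl3Statement) (htax : TaxStatement) (htbx : TbxStatement) (hnlc : NlcStatement)
    (hexx : ExxStatement) (hnkp : NkpStatement) (C : Ctx P Q L ∅ ∅ cP cQ KP KQ)
    (hNP : ∀ S, S ∈ NP ↔ InN P Q L S) (hNQ : ∀ S, S ∈ NQ ↔ InN Q P L S) (sm : Same NP NQ L) :
    ∀ h, Special P h → lam h ≤ L → ∃ g, Mat P Q g h := by
  intro h sp hl
  have HP := half_P hevr hlmx C
  have HQ := half_Q hevr hlmx C
  rcases lt_or_eq_of_le hl with hlt | hl
  · exact C.hyp.m1 h sp hlt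
  by_cases h4 : 4 ≤ (touch P h).card
  · exact four HP sp hl h4
  have hc : (touch P h).card = 3 := by have := sp.three; omega
  by_cases hm : MTr P Q L (touch P h)
  · obtain ⟨g, _, _, δ, hδ, h1, _⟩ := rl_P hrlx C hm
    exact ⟨g, h1 h sp.sub sp.fits (Finset.Subset.refl _) (by linarith)⟩
  have hN : InN P Q L (touch P h) := ⟨touch_sub P h, hc, np_P C (touch_sub P h),
    ⟨h, sp.sub, sp.fits, Finset.Subset.refl _, hl.le⟩, hm⟩
  obtain ⟨no, ng⟩ := not_old hcl3 htax htbx HP sp hl hc hm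
  rcases (hnkp P Q L ∅ cP KP C.gx HP).1 _ hN.sub hc hN.le hm (not_TB_empty _ _) with
    ho | hg | ⟨c, c', hA⟩ | ⟨c, a, b, hB⟩ | ⟨c, a, b, hB⟩
  · exact absurd ho no
  · exact absurd hg ng
  · obtain ⟨S', hS', hA'⟩ := sm.A _ ((hNP _).2 hN) c c' hA
    obtain ⟨g, hg⟩ := cong_A hA hA'
    exact ⟨g, mat_of hnlc hexx HQ sp.sub sp.fits hl.le (by rw [hg]; exact (hNQ _).1 hS')⟩
  · obtain ⟨S', hS', i', j', q', e', hc', hB'⟩ := sm.B _ ((hNP _).2 hN) c a b (Or.inl hB)
    obtain ⟨i, j, q, e, hc2, hB2, hp⟩ := hB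
    obtain ⟨g, hg⟩ := cong_B hB2 hB'
    exact ⟨g, mat_of hnlc hexx HQ sp.sub sp.fits hl.le (by
      rw [e, hg, ← e']; exact (hNQ _).1 hS')⟩
  · obtain ⟨S', hS', i', j', q', e', hc', hB'⟩ := sm.B _ ((hNP _).2 hN) c a b (Or.inr hB)
    obtain ⟨i, j, q, e, hc2, hB2, hp⟩ := hB
    obtain ⟨g, hg⟩ := cong_B hB2 hB'
    exact ⟨g, mat_of hnlc hexx HQ sp.sub sp.fits hl.le (by
      rw [e, hg, ← e']; exact (hNQ _).1 hS')⟩

theorem m2 (hevr : EvrStatement) (hlmx : LmxStatement) (hrlx : RlxStatement)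
    (hcl3 : Cl3Statement) (htax : TaxStatement) (htbx : TbxStatement) (hnlc : NlcStatement)
    (hexx : ExxStatement) (hnkx : NkxStatement) (hprx : PrxStatement)
    (C : Ctx P Q L ∅ ∅ cP cQ KP KQ) (hfp : ∀ a a', ¬ FacePair Q L a a')
    (hNP : ∀ S, S ∈ NP ↔ InN P Q L S) (hNQ : ∀ S, S ∈ NQ ↔ InN Q P L S) (sm : Same NP NQ L) :
    ∀ h, Special Q h → lam h ≤ L → ∃ g, Mat Q P g h := by
  intro h sp hl
  have HP := half_P hevr hlmx C
  have HQ := half_Q hevr hlmx C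
  rcases lt_or_eq_of_le hl with hlt | hl
  · exact C.hyp.m2 h sp hlt
  by_cases h4 : 4 ≤ (touch Q h).card
  · exact four HQ sp hl h4
  have hc : (touch Q h).card = 3 := by have := sp.three; omega
  by_cases hm : MTr Q P L (touch Q h)
  · obtain ⟨g, _, δ, hδ, h1⟩ := rl_Q hrlx C hm
    exact ⟨g, h1 h sp.sub sp.fits (Finset.Subset.refl _) (by linarith)⟩
  have hnp : Np (touch Q h) := by
    intro s hs t ht hst h0
    exact hfp s t ((hprx P Q L C.hyp C.gx C.pq C.L0 s (touch_sub Q h hs) t (touch_sub Q h ht) hst h0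
      h sp.sub sp.fits hs ht).2 hl)
  have hN : InN Q P L (touch Q h) := ⟨touch_sub Q h, hc, hnp,
    ⟨h, sp.sub, sp.fits, Finset.Subset.refl _, hl.le⟩, hm⟩
  obtain ⟨no, ng⟩ := not_old hcl3 htax htbx HQ sp hl hc hm
  have hin := (hNQ _).2 hN
  rcases (hnkx Q P L ∅ cQ KQ HQ _ hN.sub hc hnp hN.le hm (not_TB_empty _ _)).1 with
    (ho | hg | ⟨c, c', hA⟩ | ⟨c, a, b, hB⟩ | ⟨c, a, b, hB⟩) | ⟨c, hA⟩ | ⟨a, b, hB⟩ | hI
  · exact absurd ho no
  · exact absurd hg ng
  · obtain ⟨S', hS', hA'⟩ := sm.A' _ hin c c' hA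
    obtain ⟨g, hg⟩ := cong_A hA hA'
    exact ⟨g, mat_of hnlc hexx HP sp.sub sp.fits hl.le (by rw [hg]; exact (hNP _).1 hS')⟩
  · obtain ⟨S', hS', i', j', q', e', hc', hB'⟩ := sm.B' _ hin c a b (Or.inl hB)
    obtain ⟨i, j, q, e, hc2, hB2, hp⟩ := hB
    obtain ⟨g, hg⟩ := cong_B hB2 hB'
    exact ⟨g, mat_of hnlc hexx HP sp.sub sp.fits hl.le (by
      rw [e, hg, ← e']; exact (hNP _).1 hS')⟩
  · obtain ⟨S', hS', i', j', q', e', hc', hB'⟩ := sm.B' _ hin c a b (Or.inr hB)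
    obtain ⟨i, j, q, e, hc2, hB2, hp⟩ := hB
    obtain ⟨g, hg⟩ := cong_B hB2 hB'
    exact ⟨g, mat_of hnlc hexx HP sp.sub sp.fits hl.le (by
      rw [e, hg, ← e']; exact (hNP _).1 hS')⟩
  · exact absurd hA (sm.noAh _ hin c)
  · exact absurd hB (sm.noBr _ hin a b)
  · exact absurd hI (sm.noIso _ hin)

/-- uniqueness of an isometry from `Q` into `P` -/
theorem uniq_Q (hunx : UnxStatement) (C : Ctx P Q L ∅ ∅ cP cQ KP KQ) {S : Finset HP} (hS : S ⊆ Q)
    (hc : S.card = 3) {g g' : Iso2} (h : ∀ s ∈ S, mv g s ∈ P) (h' : ∀ s ∈ S, mv g' s ∈ P) :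
    g = g' :=
  (hunx.2 Q P C.pq.unit C.gx.gen.pg C.gx.gen.g1 g g').2 S hS hc.ge h h'

theorem inv_mem {g : Iso2} {S : Finset HP} (hS : S ⊆ P) : ∀ s ∈ S.image (mv g), mv g⁻¹ s ∈ P := by
  intro s hs
  obtain ⟨t, ht, rfl⟩ := Finset.mem_image.1 hs
  rw [mvInv']
  exact hS ht

/-- triples with the same orthic length coincide in `P` -/
theorem ghost_eq (C : Ctx P Q L ∅ ∅ cP cQ KP KQ) {S S' : Finset HP} (hS : S ⊆ P) (hS' : S' ⊆ P)
    (hc : S.card = 3) (hc' : S'.card = 3) (h : ell S = ell S') : S = S' := by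
  obtain ⟨a, b, c, h1, h2, h3, rfl⟩ := Finset.card_eq_three.1 hc
  obtain ⟨a', b', c', h1', h2', h3', rfl⟩ := Finset.card_eq_three.1 hc'
  have hell := Pool.Agent.AEU.H40.ell Pool.Agent.AEU.H72.act
  rw [hell.1 a b c h1 h2 h3, hell.1 a' b' c' h1' h2' h3'] at h
  have hss := C.gx.gen.g2.ss a b c a' b' c'
    ⟨hS (by simp), hS (by simp), hS (by simp), h1, h2, h3⟩
    ⟨hS' (by simp), hS' (by simp), hS' (by simp), h1', h2', h3'⟩ h
  ext s
  simp only [Finset.mem_insert, Finset.mem_singleton]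
  exact hss s

open Classical in
theorem not_short_acute (hevr : EvrStatement) (hlmx : LmxStatement) (hghx : GhxStatement)
    (C : Ctx P Q L ∅ ∅ cP cQ KP KQ) {g : Iso2} {S : Finset HP} (hS : S ⊆ P) (hc : S.card = 3)
    (hL : ¬ Lt P S L) (hN : InN Q P L (S.image (mv g))) : ¬ Lt Q (S.image (mv g)) L := by
  intro hlt1
  have HQ := half_Q hevr hlmx C
  have gh := ghost_of HQ hN hlt1
  obtain ⟨ac, _, _, _, _, _, _, _, hmin⟩ := hghx Q C.pq _ gh
  obtain ⟨h₁, s₁, f₁, t₁, l₁⟩ := hlt1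
  have hlL : ell (S.image (mv g)) < L := lt_of_le_of_lt (hmin h₁ s₁ f₁ t₁) l₁
  have hgc := C.hyp.gh _ hlL
  have hpos : 0 < gc P (ell (S.image (mv g))) := by
    rw [hgc]
    unfold gc
    rw [Finset.card_pos]
    exact ⟨S.image (mv g), Finset.mem_filter.2 ⟨Finset.mem_powersetCard.2 ⟨hN.sub, hN.card⟩, gh,
      rfl⟩⟩
  unfold gc at hpos
  rw [Finset.card_pos] at hpos
  obtain ⟨S'', hS''⟩ := hpos
  obtain ⟨hm'', gh'', l''⟩ := Finset.mem_filter.1 hS''
  obtain ⟨hs'', hc''⟩ := Finset.mem_powersetCard.1 hm''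
  have e1 := ((Pool.Agent.AEU.H40.ell Pool.Agent.AEU.H72.act).2.2.2 g⁻¹ (S.image (mv g)) hN.card
    (fun s hs => C.pq.unit s (hN.sub hs)) ac).1
  rw [image_inv] at e1
  have e2 : S'' = S := ghost_eq C hs'' hS hc'' hc (by rw [l'', e1])
  subst e2
  obtain ⟨_, _, _, h₀, s₀, f₀, t₀, l₀, _⟩ := hghx P C.gx.gen.pg _ gh''
  exact hL ⟨h₀, s₀, f₀, t₀.ge, by rw [l₀, l'']; exact hlL⟩

theorem kA_kindP {S : Finset HP} {c c' : ℝ} (h : KA S L c c') : KindP S L :=
  Or.inr (Or.inr (Or.inl ⟨c, c', h⟩))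

theorem kB_kindP {S : Finset HP} {c a b : ℝ} (h : KB S L c a b) : KindP S L :=
  Or.inr (Or.inr (Or.inr (Or.inl ⟨c, a, b, h⟩)))

theorem kGh_kindP {S : Finset HP} (h : KGh S L) : KindP S L := Or.inr (Or.inl h)

/-- a placement of a body of length `L` with at least four contacts is a matching -/
theorem mat_four (hevr : EvrStatement) (hunx : UnxStatement) (hlmx : LmxStatement)
    (hghx : GhxStatement) (hrlx : RlxStatement) (hnkx : NkxStatement) (hnkp : NkpStatement)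
    (C : Ctx P Q L ∅ ∅ cP cQ KP KQ) (hNP : ∀ S, S ∈ NP ↔ InN P Q L S)
    (hNQ : ∀ S, S ∈ NQ ↔ InN Q P L S) (sm : Same NP NQ L) {g : Iso2} {S : Finset HP} {h : ℂ → ℝ}
    (w : WP P Q g S h) (hl : lam h = L) (ht : touch P h ≠ S) (hL : ¬ Lt P S L) :
    Mat P Q g h := by
  have HP := half_P hevr hlmx C
  have HQ := half_Q hevr hlmx C
  have hSP : S ⊆ P := w.tch.trans (touch_sub P h)
  have h4 : 4 ≤ (touch P h).card := by
    have := Finset.card_lt_card (Finset.ssubset_iff_subset_ne.2 ⟨w.tch, fun e => ht e.symm⟩)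
    rw [w.card] at this
    omega
  have sp : Special P h := ⟨w.sub, w.fits, by omega, Or.inr h4⟩
  have hk : Sublin (mb g h) := sMb g w.sub
  have hlk : lam (mb g h) = L := by rw [lMb g w.sub, hl]
  have t1 : S.image (mv g) ⊆ touch Q (mb g h) := image_touch g w.tch w.mem
  have hc1 : (S.image (mv g)).card = 3 := by rw [card_image, w.card]
  have hS1Q : S.image (mv g) ⊆ Q := t1.trans (touch_sub _ _)
  by_cases e : touch Q (mb g h) = S.image (mv g)
  · exfalso
    have nm : ¬ MTr Q P L (S.image (mv g)) := by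
      intro hm
      obtain ⟨g3, _, δ, hδ, h3⟩ := rl_Q hrlx C hm
      have M := h3 (mb g h) hk w.fits' t1 (by linarith)
      have e3 : g3 = g⁻¹ := uniq_Q hunx C hS1Q hc1
        (fun s hs => M.mem s (t1 hs)) (inv_mem hSP)
      subst e3
      have tM := (Pool.Agent.AEU.H69.msy Pool.Agent.AEU.H72.act Q P g⁻¹ _ M).2.1
      rw [mbInv', e, image_inv] at tM
      exact ht tM
    have hN : InN Q P L (S.image (mv g)) :=
      ⟨hS1Q, hc1, np_image g (np_P C hSP), ⟨mb g h, hk, w.fits', t1, hlk.le⟩, nm⟩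
    have nlt := not_short_acute hevr hlmx hghx C hSP w.card hL hN
    have nac : ∀ _ : Acute (S.image (mv g)), ¬ ell (S.image (mv g)) < L :=
      fun ha hl' => nlt (lt_of_acute hghx hnkx HQ hN ha hl')
    have mt : MTr P Q L S := mtr_of HP sp w.tch w.card (Or.inr ⟨hl, h4⟩)
    have key : ∀ S' ∈ NP, KindP S' L → ¬ Old S' L → KindP S L → ¬ Old S L → False := by
      intro S' hS' k' o' k o
      have hN' := (hNP S').1 hS'
      have e := (hnkp P Q L ∅ cP KP C.gx HP).2 S hSP S' hN'.sub k k' o o'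
      subst e
      exact hN'.nm mt
    have hin := (hNQ _).2 hN
    rcases (hnkx Q P L ∅ cQ KQ HQ _ hN.sub hc1 hN.np hN.le nm (not_TB_empty _ _)).1 with
      (ho | hg | ⟨c, c', hA⟩ | ⟨c, a, b, hB⟩ | ⟨c, a, b, hB⟩) | ⟨c, hA⟩ | ⟨a, b, hB⟩ | hI
    · exact nac ho.acute ho.lt
    · obtain ⟨S', hS', hg'⟩ := sm.gh.2 ⟨_, hin, hg⟩
      have hgS := kGh_mv g⁻¹ hg
      rw [image_inv] at hgS
      exact key S' hS' (kGh_kindP hg') (kGh_not_old hg') (kGh_kindP hgS) (kGh_not_old hgS)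
    · obtain ⟨S', hS', hA'⟩ := sm.A' _ hin c c' hA
      have hAS := kA_mv g⁻¹ hA
      rw [image_inv] at hAS
      exact key S' hS' (kA_kindP hA') (kA_not_old hA') (kA_kindP hAS) (kA_not_old hAS)
    · obtain ⟨S', hS', i, j, q, e', hc', hB'⟩ := sm.B' _ hin c a b (Or.inl hB)
      have hBS := kB_mv g⁻¹ hB
      rw [image_inv] at hBS
      have hB'' : KB S' L c a b := ⟨i, j, q, e', hc', hB', by
        obtain ⟨_, _, _, _, _, _, hp⟩ := hB; exact hp⟩
      exact key S' hS' (kB_kindP hB'') (kB_not_old hB'') (kB_kindP hBS) (kB_not_old hBS)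
    · obtain ⟨_, _, _, _, _, _, _, ha, _, hl', _⟩ := hB
      exact nac ha hl'
    · exact sm.noAh _ hin c hA
    · exact sm.noBr _ hin a b hB
    · exact sm.noIso _ hin hI
  · have h4' : 4 ≤ (touch Q (mb g h)).card := by
      have := Finset.card_lt_card (Finset.ssubset_iff_subset_ne.2 ⟨t1, fun e' => e e'.symm⟩)
      rw [hc1] at this
      omega
    have sp' : Special Q (mb g h) := ⟨hk, w.fits', by omega, Or.inr h4'⟩
    obtain ⟨g3, M3⟩ := four HQ sp' hlk h4'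
    have e3 : g3 = g⁻¹ := uniq_Q hunx C hS1Q hc1 (fun s hs => M3.mem s (t1 hs)) (inv_mem hSP)
    subst e3
    have M := (Pool.Agent.AEU.H69.msy Pool.Agent.AEU.H72.act Q P g⁻¹ _ M3).1
    rwa [inv_inv, mbInv'] at M

theorem uqL (hevr : EvrStatement) (hunx : UnxStatement) (humx : UmxStatement)
    (ht3x : T3xStatement) (huql : UqlStatement) (hlmx : LmxStatement)
    (hghx : GhxStatement) (hrlx : RlxStatement) (hnkx : NkxStatement) (hnkp : NkpStatement)
    (C : Ctx P Q L ∅ ∅ cP cQ KP KQ) (hNP : ∀ S, S ∈ NP ↔ InN P Q L S)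
    (hNQ : ∀ S, S ∈ NQ ↔ InN Q P L S) (sm : Same NP NQ L) (g g' : Iso2) (S : Finset HP)
    (h : ℂ → ℝ) (w : WP P Q g S h) (w' : WP P Q g' S h) (hl : lam h ≤ L) : g = g' := by
  have HP := half_P hevr hlmx C
  have HQ := half_Q hevr hlmx C
  have hSP : S ⊆ P := w.tch.trans (touch_sub P h)
  rcases lt_or_eq_of_le hl with hlt | hl
  · exact C.hyp.uq g g' S h w w' hlt
  by_cases hL : Lt P S L
  · exact huql P Q L C.hyp C.gx C.pq g g' S h w w' hl.le hL
  by_cases ht : touch P h = S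
  · have nmS : ¬ MTr P Q L S := by
      rintro ⟨_, _, h', g0, sp', M', th', hl'⟩
      rcases hl' with hl' | ⟨hl', h4'⟩
      · exact hL ⟨h', sp'.sub, sp'.fits, th', hl'⟩
      · have e := humx P C.gx.gen.pg S hSP w.card (np_P C hSP) h h' w.sub sp'.sub w.fits sp'.fits
          w.tch th' (by rw [hl, hl']) (by
            intro h'' s'' f'' t''
            by_contra hlt
            exact hL ⟨h'', s'', f'', t'', by rw [← hl]; exact not_le.1 hlt⟩)
        rw [← e, ht, w.card] at h4'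
        omega
    have hN : InN P Q L S := ⟨hSP, w.card, np_P C hSP, ⟨h, w.sub, w.fits, w.tch, hl.le⟩, nmS⟩
    have hN1 : ∀ g : Iso2, WP P Q g S h → InN Q P L (S.image (mv g)) := by
      intro g w
      have t1 : S.image (mv g) ⊆ touch Q (mb g h) := image_touch g w.tch w.mem
      have hc1 : (S.image (mv g)).card = 3 := by rw [card_image, w.card]
      have hS1Q : S.image (mv g) ⊆ Q := t1.trans (touch_sub _ _)
      refine ⟨hS1Q, hc1, np_image g hN.np, ⟨mb g h, sMb g w.sub, w.fits', t1, by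
        rw [lMb g w.sub]; exact hl.le⟩, ?_⟩
      intro hm
      obtain ⟨g3, hm3, δ, hδ, h3⟩ := rl_Q hrlx C hm
      have M := h3 (mb g h) (sMb g w.sub) w.fits' t1 (by rw [lMb g w.sub]; linarith)
      have e3 : g3 = g⁻¹ := uniq_Q hunx C hS1Q hc1
        (fun s hs => M.mem s (t1 hs)) (inv_mem hSP)
      subst e3
      rw [image_inv] at hm3
      exact nmS hm3
    have i1 := (hNQ _).2 (hN1 g w)
    have i2 := (hNQ _).2 (hN1 g' w')
    have nac : ∀ _ : Acute S, ¬ ell S < L :=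
      fun ha hl' => hL (lt_of_acute hghx hnkx HP hN ha hl')
    have eS : S.image (mv g) = S.image (mv g') := by
      rcases (hnkp P Q L ∅ cP KP C.gx HP).1 S hSP w.card hN.le nmS (not_TB_empty _ _) with
        ho | hg | ⟨c, c', hA⟩ | ⟨c, a, b, hB⟩ | ⟨c, a, b, hB⟩
      · exact absurd ho.lt (nac ho.acute)
      · exact sm.gh1 _ i1 _ i2 (kGh_mv g hg) (kGh_mv g' hg)
      · exact sm.A1 _ i1 _ i2 _ _ _ _ (kA_mv g hA) (kA_mv g' hA)
      · exact sm.B1 _ i1 _ i2 _ _ _ _ _ _ (Or.inl (kB_mv g hB)) (Or.inl (kB_mv g' hB))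
      · obtain ⟨_, _, _, _, _, _, _, ha, _, hl', _⟩ := hB
        exact absurd hl' (nac ha)
    have e1 : g'⁻¹ * g = 1 := by
      refine (hunx.2 P P C.gx.gen.pg.unit C.gx.gen.pg C.gx.gen.g1 (g'⁻¹ * g) 1).2 S hSP
        w.card.ge ?_ ?_
      · intro s hs
        rw [Pool.Agent.AEU.H72.act.1]
        have h1 : mv g s ∈ S.image (mv g') := by
          rw [← eS]; exact Finset.mem_image_of_mem _ hs
        obtain ⟨t, ht', e⟩ := Finset.mem_image.1 h1
        rw [← e, mvInv']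
        exact hSP ht'
      · intro s hs
        rw [Pool.Agent.AEU.H72.act.2.1]
        exact hSP hs
    exact (inv_mul_eq_one.1 e1).symm
  · have M := mat_four hevr hunx hlmx hghx hrlx hnkx hnkp C hNP hNQ sm w hl ht hL
    have M' := mat_four hevr hunx hlmx hghx hrlx hnkx hnkp C hNP hNQ sm w' hl ht hL
    have h4 : 4 ≤ (touch P h).card := by
      have := Finset.card_lt_card (Finset.ssubset_iff_subset_ne.2 ⟨w.tch, fun e => ht e.symm⟩)
      rw [w.card] at this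
      omega
    obtain ⟨F, hF, hF4⟩ := Finset.exists_subset_card_eq h4
    obtain ⟨t, htF, hlt⟩ := ht3x P C.gx.gen.pg h w.sub w.fits F hF hF4
    rw [hl] at hlt
    have hc3 : (F.erase t).card = 3 := by rw [Finset.card_erase_of_mem htF, hF4]
    have wp : ∀ g, Mat P Q g h → WP P Q g (F.erase t) h := fun g M =>
      ⟨hc3, w.sub, w.fits, M.fits', (Finset.erase_subset t F).trans hF,
        fun s hs => M.mem s (hF (Finset.mem_of_mem_erase hs))⟩
    exact huql P Q L C.hyp C.gx C.pq g g' (F.erase t) h (wp g M) (wp g' M') hl.le hlt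

open Classical in
theorem ghL (hevr : EvrStatement) (hlmx : LmxStatement) (hghx : GhxStatement)
    (hnkx : NkxStatement) (hnkp : NkpStatement)
    (C : Ctx P Q L ∅ ∅ cP cQ KP KQ) (hNP : ∀ S, S ∈ NP ↔ InN P Q L S)
    (hNQ : ∀ S, S ∈ NQ ↔ InN Q P L S) (sm : Same NP NQ L) (l : ℝ) (hl : l ≤ L) :
    gc P l = gc Q l := by
  have HP := half_P hevr hlmx C
  have HQ := half_Q hevr hlmx C
  rcases lt_or_eq_of_le hl with hlt | hl
  · exact C.hyp.gh l hlt
  subst hl
  have mP : ∀ S, S ∈ ((P.powersetCard 3).filter fun S => Ghost P S ∧ ell S = l) ↔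
      (InN P Q l S ∧ KGh S l) := by
    intro S; rw [Finset.mem_filter]; exact ghost_L hghx hnkx HP S
  have mQ : ∀ S, S ∈ ((Q.powersetCard 3).filter fun S => Ghost Q S ∧ ell S = l) ↔
      (InN Q P l S ∧ KGh S l) := by
    intro S; rw [Finset.mem_filter]; exact ghost_L hghx hnkx HQ S
  unfold gc
  have c1 : ((P.powersetCard 3).filter fun S => Ghost P S ∧ ell S = l).card ≤ 1 := by
    rw [Finset.card_le_one]
    intro S hS S' hS'
    have h1 := (mP S).1 hS
    have h2 := (mP S').1 hS'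
    exact (hnkp P Q l ∅ cP KP C.gx HP).2 S h1.1.sub S' h2.1.sub (kGh_kindP h1.2)
      (kGh_kindP h2.2) (kGh_not_old h1.2) (kGh_not_old h2.2)
  have c2 : ((Q.powersetCard 3).filter fun S => Ghost Q S ∧ ell S = l).card ≤ 1 := by
    rw [Finset.card_le_one]
    intro S hS S' hS'
    have h1 := (mQ S).1 hS
    have h2 := (mQ S').1 hS'
    exact sm.gh1 S ((hNQ S).2 h1.1) S' ((hNQ S').2 h2.1) h1.2 h2.2
  have c3 : (0 < ((P.powersetCard 3).filter fun S => Ghost P S ∧ ell S = l).card) ↔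
      (0 < ((Q.powersetCard 3).filter fun S => Ghost Q S ∧ ell S = l).card) := by
    rw [Finset.card_pos, Finset.card_pos]
    constructor
    · rintro ⟨S, hS⟩
      have h1 := (mP S).1 hS
      obtain ⟨S', h2, h3⟩ := sm.gh.1 ⟨S, (hNP S).2 h1.1, h1.2⟩
      exact ⟨S', (mQ S').2 ⟨(hNQ S').1 h2, h3⟩⟩
    · rintro ⟨S, hS⟩
      have h1 := (mQ S).1 hS
      obtain ⟨S', h2, h3⟩ := sm.gh.2 ⟨S, (hNQ S).2 h1.1, h1.2⟩
      exact ⟨S', (mP S').2 ⟨(hNP S').1 h2, h3⟩⟩
  omega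

end main

/-- FNX -/
theorem fnx (hevr : EvrStatement) (hunx : UnxStatement) (humx : UmxStatement)
    (ht3x : T3xStatement) (huql : UqlStatement) (hlmx : LmxStatement) (hghx : GhxStatement)
    (hrlx : RlxStatement) (hcl3 : Cl3Statement) (htax : TaxStatement) (htbx : TbxStatement)
    (hnlc : NlcStatement) (hexx : ExxStatement) (hnkx : NkxStatement) (hnkp : NkpStatement)
    (hprx : PrxStatement) : FnxStatement := by
  intro P Q L cP cQ KP KQ C hfp NP NQ hNP hNQ sm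
  have hP : ∀ S, S ∈ NP ↔ InN P Q L S := fun S => (hNP S).trans inN_iff.symm
  have hQ : ∀ S, S ∈ NQ ↔ InN Q P L S := fun S => (hNQ S).trans inN_iff.symm
  exact ⟨m1 hevr hlmx hrlx hcl3 htax htbx hnlc hexx hnkp C hP hQ sm,
    m2 hevr hlmx hrlx hcl3 htax htbx hnlc hexx hnkx hprx C hfp hP hQ sm,
    fun g g' S h w w' hl =>
      uqL hevr hunx humx ht3x huql hlmx hghx hrlx hnkx hnkp C hP hQ sm g g' S h w w' hl,
    fun l hl => ghL hevr hlmx hghx hnkx hnkp C hP hQ sm l hl⟩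

end Pool.Agent.XQ.H93
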