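import Pool.Agent.Helper36_XQ.Stmt5
import Pool.Agent.Helper69_AEU.Per

/-!
Squad XQ, module E4_CE2: certificate at the vertex.
-/

set_option autoImplicit false

namespace Pool.Agent.XQ.K4.H93

open MeasureTheory Complex Filter Topology Pool.Agent.H62T Pool.Agent.AEU
open Pool.Agent.H16F (Sublin)
open Pool.Agent.AEU.H69

/-- the integral over an arc, one point -/
theorem arc_one (F : ℂ → ℝ) (hF : Continuous fun θ : ℝ => F (ee θ)) (m : ℂ) (a b : ℝ)
    (hm : ∀ w, ip w m ≤ F w) (hab : a ≤ b) :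
    (Real.sin b - Real.sin a) * m.re + (Real.cos a - Real.cos b) * m.im
      ≤ ∫ θ in a..b, F (ee θ) := by
  have i1 : IntervalIntegrable (fun θ : ℝ => Real.cos θ * m.re) volume a b :=
    (Real.continuous_cos.mul continuous_const).intervalIntegrable _ _
  have i2 : IntervalIntegrable (fun θ : ℝ => Real.sin θ * m.im) volume a b :=
    (Real.continuous_sin.mul continuous_const).intervalIntegrable _ _
  have e1 : ∫ θ in a..b, ip (ee θ) m
      = (Real.sin b - Real.sin a) * m.re + (Real.cos a - Real.cos b) * m.im := by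
    simp only [ip_ee]
    rw [intervalIntegral.integral_add i1 i2, intervalIntegral.integral_mul_const,
      intervalIntegral.integral_mul_const, integral_cos, integral_sin]
  have i0 : IntervalIntegrable (fun θ : ℝ => ip (ee θ) m) volume a b :=
    ((H69.ip_cont m).comp ee_cont).intervalIntegrable _ _
  rw [← e1]
  exact intervalIntegral.integral_mono_on hab i0 (hF.intervalIntegrable a b) (fun θ _ => hm _)

/-- the integral over an arc, for a point of the arc -/
theorem arc_circ (F : ℂ → ℝ) (hF : Continuous fun θ : ℝ => F (ee θ)) (m0 m1 : ℂ)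
    (h0 : ∀ w, ip w m0 ≤ F w) (h1 : ∀ w, ip w m1 ≤ F w) (a b ψ : ℝ) (ha : a ≤ ψ)
    (hb : ψ ≤ b) :
    (Real.sin ψ - Real.sin a) * m0.re + (Real.cos a - Real.cos ψ) * m0.im
      + (Real.sin b - Real.sin ψ) * m1.re + (Real.cos ψ - Real.cos b) * m1.im
      ≤ ∫ θ in a..b, F (ee θ) := by
  have hii : ∀ a b : ℝ, IntervalIntegrable (fun θ : ℝ => F (ee θ)) volume a b := fun a b =>
    hF.intervalIntegrable a b
  rw [← intervalIntegral.integral_add_adjacent_intervals (hii a ψ) (hii _ _)]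
  have k0 := arc_one F hF m0 a ψ h0 ha
  have k1 := arc_one F hF m1 ψ b h1 hb
  linarith

/-- the integral over an arc, for a point of the segment of the disc -/
theorem arc_disc (F : ℂ → ℝ) (hF : Continuous fun θ : ℝ => F (ee θ)) (m0 m1 : ℂ)
    (h0 : ∀ w, ip w m0 ≤ F w) (h1 : ∀ w, ip w m1 ≤ F w) (γ : ℝ) (hγ0 : 0 < γ)
    (hγ : γ < Real.pi / 2) (q : ℂ) (hc : q.re ≤ -Real.sin γ) (hq : ‖q‖ ≤ 1) :
    (q.im - Real.cos γ) * m0.re + (-Real.sin γ - q.re) * m0.im
      + (-Real.cos γ - q.im) * m1.re + (q.re + Real.sin γ) * m1.im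
      ≤ ∫ θ in (Real.pi / 2 + γ)..(3 * Real.pi / 2 - γ), F (ee θ) := by
  have hcs : q.re ^ 2 + q.im ^ 2 ≤ 1 := by
    have h1 : ‖q‖ ^ 2 = q.re ^ 2 + q.im ^ 2 := by
      rw [← Complex.normSq_eq_norm_sq, Complex.normSq_apply]; ring
    nlinarith [norm_nonneg q]
  generalize q.re = c at *
  generalize q.im = s at *
  have hsg : 0 < Real.sin γ := Real.sin_pos_of_pos_of_lt_pi hγ0 (by linarith [Real.pi_pos])
  have hc0 : c ≤ 0 := by linarith
  have hc1 : -1 ≤ c := by nlinarith [sq_nonneg s, sq_nonneg (c + 1)]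
  have hsq : 0 ≤ 1 - c ^ 2 := by nlinarith [sq_nonneg s]
  set t := Real.sqrt (1 - c ^ 2) with ht
  have ht0 : 0 ≤ t := Real.sqrt_nonneg _
  have ht2 : t ^ 2 = 1 - c ^ 2 := Real.sq_sqrt hsq
  have hst : |s| ≤ t := by
    apply abs_le_of_sq_le_sq _ ht0
    rw [ht2]; linarith
  rw [abs_le] at hst
  have hac : Real.pi / 2 + γ ≤ Real.arccos c := by
    have h1 : Real.arccos (Real.cos (Real.pi / 2 + γ)) = Real.pi / 2 + γ :=
      Real.arccos_cos (by linarith [Real.pi_pos]) (by linarith)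
    rw [← h1]
    refine Real.arccos_le_arccos ?_
    rw [show Real.pi / 2 + γ = γ + Real.pi / 2 by ring, Real.cos_add_pi_div_two]
    exact hc
  have s1 : Real.sin (Real.pi / 2 + γ) = Real.cos γ := by
    rw [show Real.pi / 2 + γ = γ + Real.pi / 2 by ring, Real.sin_add_pi_div_two]
  have c1 : Real.cos (Real.pi / 2 + γ) = -Real.sin γ := by
    rw [show Real.pi / 2 + γ = γ + Real.pi / 2 by ring, Real.cos_add_pi_div_two]
  have s2 : Real.sin (3 * Real.pi / 2 - γ) = -Real.cos γ := by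
    rw [show 3 * Real.pi / 2 - γ = Real.pi / 2 - γ + Real.pi by ring, Real.sin_add_pi,
      Real.sin_pi_div_two_sub]
  have c2 : Real.cos (3 * Real.pi / 2 - γ) = -Real.sin γ := by
    rw [show 3 * Real.pi / 2 - γ = Real.pi / 2 - γ + Real.pi by ring, Real.cos_add_pi,
      Real.cos_pi_div_two_sub]
  have A := arc_circ F hF m0 m1 h0 h1 (Real.pi / 2 + γ) (3 * Real.pi / 2 - γ) (Real.arccos c) hac
    ((Real.arccos_le_pi c).trans (by linarith [Real.pi_pos]))
  have B := arc_circ F hF m0 m1 h0 h1 (Real.pi / 2 + γ) (3 * Real.pi / 2 - γ)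
    (2 * Real.pi - Real.arccos c)
    (by linarith [Real.arccos_le_pi c, Real.pi_pos]) (by linarith)
  rw [Real.cos_arccos hc1 (by linarith), Real.sin_arccos, ← ht, s1, c1, s2, c2] at A
  rw [Real.cos_two_pi_sub, Real.sin_two_pi_sub, Real.cos_arccos hc1 (by linarith),
    Real.sin_arccos, ← ht, s1, c1, s2, c2] at B
  rcases le_total m0.re m1.re with h | h
  · nlinarith
  · nlinarith

/-- the perimeter is the sum of the three arcs -/
theorem lam_split3 (p : Fin 4 → ℂ) (a b ψ : ℝ) :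
    lam (hf p) = (∫ θ in a..b, hf p (ee θ)) + (∫ θ in b..ψ, hf p (ee θ))
      + ∫ θ in ψ..(a + 2 * Real.pi), hf p (ee θ) := by
  have hs : Sublin (hf p) := sub_hf p
  have hc : Continuous fun θ : ℝ => hf p (ee θ) := (sub_cont hs).comp ee_cont
  have hii : ∀ a b : ℝ, IntervalIntegrable (fun θ : ℝ => hf p (ee θ)) volume a b := fun a b =>
    hc.intervalIntegrable a b
  have per : Function.Periodic (fun θ : ℝ => hf p (ee θ)) (2 * Real.pi) := fun θ => by
    simp only
    rw [ee_per θ]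
  have h1 := per.intervalIntegral_add_eq 0 a
  rw [zero_add] at h1
  rw [lam_def, h1, intervalIntegral.integral_add_adjacent_intervals (hii a b) (hii _ _),
    intervalIntegral.integral_add_adjacent_intervals (hii a ψ) (hii _ _)]

/-- CE2 -/
theorem ce2 : Ce2Statement := by
  intro η1 η2 γ ha1 ha2 hb1 hb2 hγ0 hγ
  have hpi := Real.pi_pos
  have k1 : 0 < Real.cos η1 := Real.cos_pos_of_mem_Ioo ⟨by linarith, ha2⟩
  have k2 : 0 < Real.cos η2 := Real.cos_pos_of_mem_Ioo ⟨by linarith, hb2⟩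
  have kγ : 0 < Real.cos γ := Real.cos_pos_of_mem_Ioo ⟨by linarith, by linarith⟩
  have hS : 0 < Real.sin (η1 + η2) := Real.sin_pos_of_pos_of_lt_pi (by linarith) (by linarith)
  have hC : Real.cos (η1 + η2 - γ) < 0 :=
    Real.cos_neg_of_pi_div_two_lt_of_lt (by linarith) (by linarith)
  set S := Real.sin (η1 + η2) with hSd
  have eS : S = Real.sin η1 * Real.cos η2 + Real.cos η1 * Real.sin η2 := Real.sin_add η1 η2
  have eC : Real.cos (η1 + η2 - γ)
      = (Real.cos η1 * Real.cos η2 - Real.sin η1 * Real.sin η2) * Real.cos γ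
        + (Real.sin η1 * Real.cos η2 + Real.cos η1 * Real.sin η2) * Real.sin γ := by
    rw [Real.cos_sub, Real.cos_add, Real.sin_add]
  have p1 := Real.sin_sq_add_cos_sq η1
  have pγ := Real.sin_sq_add_cos_sq γ
  obtain ⟨c0, hc0⟩ : ∃ c0 : ℝ, c0 = 2 * Real.cos γ * Real.cos η2 / S := ⟨_, rfl⟩
  obtain ⟨c1, hc1⟩ : ∃ c1 : ℝ, c1 = 2 * Real.cos γ * Real.cos η1 / S := ⟨_, rfl⟩
  have c0S : c0 * S = 2 * Real.cos γ * Real.cos η2 := by rw [hc0]; field_simp
  have c1S : c1 * S = 2 * Real.cos γ * Real.cos η1 := by rw [hc1]; field_simp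
  have c0p : 0 < c0 := by rw [hc0]; positivity
  have c1p : 0 < c1 := by rw [hc1]; positivity
  have rel1 : c0 * Real.cos η1 = c1 * Real.cos η2 := by rw [hc0, hc1]; ring
  have rel2 : c0 * Real.sin η1 + c1 * Real.sin η2 = 2 * Real.cos γ := by
    have : S * (c0 * Real.sin η1 + c1 * Real.sin η2) = S * (2 * Real.cos γ) := by
      have : S * (c0 * Real.sin η1 + c1 * Real.sin η2)
          = (c0 * S) * Real.sin η1 + (c1 * S) * Real.sin η2 := by ring
      rw [this, c0S, c1S, eS]; ring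
    exact mul_left_cancel₀ hS.ne' this
  have pos2 : 0 < 2 * (Real.sin η1 * Real.cos γ - Real.cos η1 * Real.sin γ) - c0 := by
    have h1 : S * (2 * (Real.sin η1 * Real.cos γ - Real.cos η1 * Real.sin γ) - c0)
        = -2 * Real.cos η1 * Real.cos (η1 + η2 - γ) := by
      have : S * (2 * (Real.sin η1 * Real.cos γ - Real.cos η1 * Real.sin γ) - c0)
          = 2 * (Real.sin η1 * Real.cos γ - Real.cos η1 * Real.sin γ) * S - c0 * S := by ring
      rw [this, c0S, eS, eC]
      linear_combination (2 * Real.cos η2 * Real.cos γ) * p1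
    have h2 : 0 < S * (2 * (Real.sin η1 * Real.cos γ - Real.cos η1 * Real.sin γ) - c0) := by
      rw [h1]
      have := mul_pos k1 (neg_pos.mpr hC)
      linarith
    exact (pos_iff_pos_of_mul_pos h2).mp hS
  obtain ⟨q, hqr, hqi⟩ : ∃ q : ℂ, q.re = -Real.sin γ - c0 * Real.cos η1 ∧
      q.im = Real.cos γ - c0 * Real.sin η1 :=
    ⟨⟨-Real.sin γ - c0 * Real.cos η1, Real.cos γ - c0 * Real.sin η1⟩, rfl, rfl⟩
  have nq : ‖q‖ ^ 2
      = 1 - c0 * (2 * (Real.sin η1 * Real.cos γ - Real.cos η1 * Real.sin γ) - c0) := by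
    rw [← Complex.normSq_eq_norm_sq, Complex.normSq_apply, hqr, hqi]
    linear_combination (c0 ^ 2) * p1 + pγ
  have nq1 : ‖q‖ < 1 := by
    have h1 : 0 < c0 * (2 * (Real.sin η1 * Real.cos γ - Real.cos η1 * Real.sin γ) - c0) :=
      mul_pos c0p pos2
    rw [← sq_lt_one_iff₀ (norm_nonneg q), nq]
    linarith
  have ck : 0 < c0 * Real.cos η1 := mul_pos c0p k1
  obtain ⟨r, hr⟩ : ∃ r : ℝ, r = min (c0 * Real.cos η1) (1 - ‖q‖) := ⟨_, rfl⟩
  have r0 : 0 < r := by rw [hr]; exact lt_min ck (by linarith)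
  have r1 : r ≤ c0 * Real.cos η1 := by rw [hr]; exact min_le_left _ _
  have r2 : r ≤ 1 - ‖q‖ := by rw [hr]; exact min_le_right _ _
  refine ⟨c0, c1, r, c0p, c1p, r0, rel2, rel1, ?_⟩
  intro ψ p hψ1 hψ2
  have hs : Sublin (hf p) := sub_hf p
  have hc : Continuous fun θ : ℝ => hf p (ee θ) := (sub_cont hs).comp ee_cont
  -- the direction
  obtain ⟨e, he, hee⟩ : ∃ e : ℂ, ‖e‖ ≤ 1 ∧
      e.im * (p 0 - p 1).re - e.re * (p 0 - p 1).im = ‖p 0 - p 1‖ := by
    by_cases hz : p 0 - p 1 = 0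
    · exact ⟨0, by simp, by rw [hz]; simp⟩
    · have hn : 0 < ‖p 0 - p 1‖ := norm_pos_iff.2 hz
      refine ⟨((‖p 0 - p 1‖⁻¹ : ℝ) : ℂ) * (I * (p 0 - p 1)), ?_, ?_⟩
      · rw [norm_mul, norm_mul, Complex.norm_I, one_mul, Complex.norm_real, norm_inv, norm_norm,
          inv_mul_cancel₀ hn.ne']
      · have h2 : ‖p 0 - p 1‖ ^ 2 = (p 0 - p 1).re ^ 2 + (p 0 - p 1).im ^ 2 := by
          rw [← Complex.normSq_eq_norm_sq, Complex.normSq_apply]; ring
        rw [Complex.re_ofReal_mul, Complex.im_ofReal_mul, Complex.I_mul_re, Complex.I_mul_im]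
        have : ‖p 0 - p 1‖⁻¹ * (p 0 - p 1).re * (p 0 - p 1).re - ‖p 0 - p 1‖⁻¹ * -(p 0 - p 1).im
            * (p 0 - p 1).im = ‖p 0 - p 1‖⁻¹ * ‖p 0 - p 1‖ ^ 2 := by rw [h2]; ring
        rw [this, pow_two, ← mul_assoc, inv_mul_cancel₀ hn.ne', one_mul]
  have hre : |e.re| ≤ 1 := (Complex.abs_re_le_norm e).trans he
  rw [abs_le] at hre
  have L := arc_disc (hf p) hc (p 0) (p 1) (fun w => le_hf p w 0) (fun w => le_hf p w 1) γ hγ0
    (by linarith) (q + (r : ℂ) * e)
    (by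
      rw [Complex.add_re, Complex.re_ofReal_mul, hqr]
      have := mul_le_mul_of_nonneg_left hre.2 r0.le
      linarith)
    (by
      refine (norm_add_le _ _).trans ?_
      rw [norm_mul, Complex.norm_real, Real.norm_of_nonneg r0.le]
      have := mul_le_mul_of_nonneg_left he r0.le
      linarith)
  rw [Complex.add_re, Complex.add_im, Complex.re_ofReal_mul, Complex.im_ofReal_mul, hqr, hqi] at L
  have L2 := arc_one (hf p) hc (p 2) (3 * Real.pi / 2 - γ) ψ (fun w => le_hf p w 2) hψ1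
  have L3 := arc_one (hf p) hc (p 3) ψ (5 * Real.pi / 2 + γ) (fun w => le_hf p w 3) hψ2
  have sp := lam_split3 p (Real.pi / 2 + γ) (3 * Real.pi / 2 - γ) ψ
  rw [show Real.pi / 2 + γ + 2 * Real.pi = 5 * Real.pi / 2 + γ by ring] at sp
  have e0 : ip (I * exp (η1 * I)) (p 0) = -Real.sin η1 * (p 0).re + Real.cos η1 * (p 0).im := by
    unfold ip
    rw [Complex.I_mul_re, Complex.I_mul_im, Complex.exp_ofReal_mul_I_re,
      Complex.exp_ofReal_mul_I_im]
  have e1 : ip (-(I * exp (-(η2 * I)))) (p 1)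
      = -Real.sin η2 * (p 1).re - Real.cos η2 * (p 1).im := by
    have : -((η2 : ℂ) * I) = ((-η2 : ℝ) : ℂ) * I := by push_cast; ring
    rw [this]
    unfold ip
    rw [Complex.neg_re, Complex.neg_im, Complex.I_mul_re, Complex.I_mul_im,
      Complex.exp_ofReal_mul_I_re, Complex.exp_ofReal_mul_I_im, Real.cos_neg, Real.sin_neg]
    ring
  have e23 : ∀ (a b : ℝ) (m : ℂ), ip (-I * (exp ((b : ℝ) * I) - exp ((a : ℝ) * I))) m
      = (Real.sin b - Real.sin a) * m.re + (Real.cos a - Real.cos b) * m.im := by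
    intro a b m
    unfold ip
    rw [neg_mul, Complex.neg_re, Complex.neg_im, Complex.I_mul_re, Complex.I_mul_im,
      Complex.sub_re, Complex.sub_im, Complex.exp_ofReal_mul_I_re, Complex.exp_ofReal_mul_I_im,
      Complex.exp_ofReal_mul_I_re, Complex.exp_ofReal_mul_I_im]
    ring
  rw [e0, e1, e23, e23, sp]
  have key : c0 * (-Real.sin η1 * (p 0).re + Real.cos η1 * (p 0).im)
      + c1 * (-Real.sin η2 * (p 1).re - Real.cos η2 * (p 1).im) + r * ‖p 0 - p 1‖
      ≤ ∫ θ in (Real.pi / 2 + γ)..(3 * Real.pi / 2 - γ), hf p (ee θ) := by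
    refine le_trans (le_of_eq ?_) L
    rw [← hee]
    simp only [Complex.sub_re, Complex.sub_im]
    linear_combination (-(p 1).re) * rel2 + ((p 1).im) * rel1
  linarith

end Pool.Agent.XQ.K4.H93
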