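import Pool.Agent.Helper36_XQ.Stmt5

/-!
Squad XQ, module E4_CYC: three contiguous clusters (combinatorics of cyclic sequences).
-/

set_option autoImplicit false

namespace Pool.Agent.XQ.K4.H93

lemma ofNat_add (n : ℕ) [NeZero n] (a b : ℕ) :
    Fin.ofNat n a + Fin.ofNat n b = Fin.ofNat n (a + b) := by
  apply Fin.ext
  simp [Fin.ofNat, Fin.val_add, Nat.add_mod]

lemma ofNat_add_self (n : ℕ) [NeZero n] (a : ℕ) : Fin.ofNat n (a + n) = Fin.ofNat n a := by
  apply Fin.ext
  simp [Fin.ofNat]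

lemma ofNat_val (n : ℕ) [NeZero n] (j : Fin n) : Fin.ofNat n j.val = j := by
  apply Fin.ext
  simp [Fin.ofNat, Nat.mod_eq_of_lt j.isLt]

lemma exists_rel (n : ℕ) [NeZero n] (p : ℕ) (j : Fin n) :
    ∃ l : ℕ, l < n ∧ Fin.ofNat n (p + l) = j := by
  refine ⟨(j - Fin.ofNat n p).val, Fin.isLt _, ?_⟩
  rw [← ofNat_add, ofNat_val]
  abel

theorem cyc : CycStatement := by
  intro n _ O A hOn hO hvis hgrp halt
  have hn : 0 < n := Nat.pos_of_ne_zero (NeZero.ne n)
  set B : ℕ → Finset (Fin 4) := fun l => A (Fin.ofNat n l) with hBdef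
  have hper : ∀ l, B (l + n) = B l := fun l => by
    simp only [hBdef]
    rw [ofNat_add_self]
  have hg : ∀ l, B l ⊆ {0, 1} ∨ B l ⊆ {2} ∨ B l ⊆ {3} := fun l => hgrp _
  have halt' : ∀ X : Finset (Fin 4), X = {0, 1} ∨ X = {2} ∨ X = {3} → ∀ l0 l1 l2 l3 : ℕ,
      l0 < l1 → l1 < l2 → l2 < l3 → l3 < l0 + n → ¬ Disjoint (B l0) X → ¬ B l1 ⊆ X →
      ¬ Disjoint (B l2) X → B l3 ⊆ X := by
    intro X hX l0 l1 l2 l3 h01 h12 h23 h3 d0 d1 d2
    have h := halt X hX (Fin.ofNat n l0) (l1 - l0) (l2 - l0) (l3 - l0) (by omega) (by omega)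
      (by omega) (by omega) d0
    rw [ofNat_add, ofNat_add, ofNat_add, show l0 + (l1 - l0) = l1 by omega,
      show l0 + (l2 - l0) = l2 by omega, show l0 + (l3 - l0) = l3 by omega] at h
    exact h d1 d2
  -- membership and groups
  have nd : ∀ (S X : Finset (Fin 4)) (i : Fin 4), i ∈ S → i ∈ X → ¬ Disjoint S X := by
    intro S X i h1 h2 hd
    exact Finset.disjoint_left.mp hd h1 h2
  have g2 : ∀ l, 2 ∈ B l → B l ⊆ {2} := by
    intro l h
    rcases hg l with h' | h' | h'
    · exact absurd (h' h) (by decide)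
    · exact h'
    · exact absurd (h' h) (by decide)
  have g3 : ∀ l, 3 ∈ B l → B l ⊆ {3} := by
    intro l h
    rcases hg l with h' | h' | h'
    · exact absurd (h' h) (by decide)
    · exact absurd (h' h) (by decide)
    · exact h'
  have sub2 : ∀ S : Finset (Fin 4), S ⊆ {2} → 2 ∉ S → S = ∅ := by decide
  have sub3 : ∀ S : Finset (Fin 4), S ⊆ {3} → 3 ∉ S → S = ∅ := by decide
  have nsub2 : ∀ S : Finset (Fin 4), S ⊆ {2} → ¬ S ⊆ {3} → 2 ∈ S := by decide
  have ndis : ∀ S : Finset (Fin 4), S ⊆ {0, 1} → ¬ S ⊆ {2} → ¬ Disjoint S {0, 1} := by decide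
  have ndis3 : ∀ S : Finset (Fin 4), S ⊆ {0, 1} → ¬ S ⊆ {3} → ¬ Disjoint S {0, 1} := by decide
  -- a visit of `2`, and the next visit of `3`
  obtain ⟨j2, hj2⟩ := hvis 2 (by simp)
  obtain ⟨j3, hj3⟩ := hvis 3 (by simp)
  have hq2 : 2 ∈ B j2.val := by
    simp only [hBdef]
    rw [ofNat_val]
    exact hj2
  have hq3 : 3 ∈ B j3.val := by
    simp only [hBdef]
    rw [ofNat_val]
    exact hj3
  have hne : j2.val ≠ j3.val := by
    intro h
    rw [← h] at hq3
    exact absurd (g3 _ hq3 hq2) (by decide)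
  have hex : ∃ m, j2.val < m ∧ m < j2.val + n ∧ 3 ∈ B m := by
    rcases lt_or_gt_of_ne hne with h | h
    · exact ⟨j3.val, h, by have := j3.isLt; omega, hq3⟩
    · exact ⟨j3.val + n, by have := j2.isLt; omega, by omega, by rw [hper]; exact hq3⟩
  classical
  obtain ⟨p, ⟨hp1, hp2, hp3⟩, hpmin⟩ : ∃ p, (j2.val < p ∧ p < j2.val + n ∧ 3 ∈ B p) ∧
      ∀ m, m < p → ¬ (j2.val < m ∧ m < j2.val + n ∧ 3 ∈ B m) :=
    ⟨Nat.find hex, Nat.find_spec hex, fun m hm => Nat.find_min hex hm⟩
  obtain ⟨q', hq'⟩ : ∃ q', q' = j2.val + n - p := ⟨_, rfl⟩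
  have hq'n : q' < n := by omega
  have hq'2 : 2 ∈ B (p + q') := by
    rw [show p + q' = j2.val + n by omega, hper]
    exact hq2
  have hafter : ∀ l, q' ≤ l → l < n → 3 ∉ B (p + l) := by
    intro l h1 h2 h3
    obtain ⟨m, hm⟩ : ∃ m, p + l = m + n := ⟨p + l - n, by omega⟩
    rw [hm, hper] at h3
    rcases Nat.lt_or_ge j2.val m with h | h
    · exact hpmin m (by omega) ⟨h, by omega, h3⟩
    · have hmq : m = j2.val := by omega
      rw [hmq] at h3
      exact absurd (g3 _ h3 hq2) (by decide)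
  have hfex : ∃ l, ¬ B (p + l) ⊆ {3} := ⟨q', fun h => absurd (h hq'2) (by decide)⟩
  obtain ⟨f, hf1, hf2⟩ : ∃ f, ¬ B (p + f) ⊆ {3} ∧ ∀ l, l < f → B (p + l) ⊆ {3} :=
    ⟨Nat.find hfex, Nat.find_spec hfex, fun l hl => not_not.mp (Nat.find_min hfex hl)⟩
  have hfq : f ≤ q' := by
    by_contra h
    exact absurd (hf2 q' (by omega) hq'2) (by decide)
  have hf0 : 0 < f := by
    rcases Nat.eq_zero_or_pos f with h | h
    · rw [h, Nat.add_zero] at hf1
      exact absurd (g3 _ hp3) hf1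
    · exact h
  have hn3 : ∀ l, f ≤ l → l < n → 3 ∉ B (p + l) := by
    intro l h1 h2 h3
    rcases Nat.lt_or_ge l q' with h | h
    · rcases Nat.eq_or_lt_of_le h1 with h4 | h4
      · rw [← h4] at h3
        exact hf1 (g3 _ h3)
      · have := halt' {3} (by simp) p (p + f) (p + l) (p + q') (by omega) (by omega) (by omega)
          (by omega) (nd _ _ 3 hp3 (by simp)) hf1 (nd _ _ 3 h3 (by simp))
        exact absurd (this hq'2) (by decide)
    · exact hafter l h h2 h3
  have hcol : ∀ l, f ≤ l → l < n → B (p + l) ⊆ {0, 1} ∨ B (p + l) ⊆ {2} := by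
    intro l h1 h2
    rcases hg (p + l) with h | h | h
    · exact Or.inl h
    · exact Or.inr h
    · rw [sub3 _ h (hn3 l h1 h2)]
      exact Or.inl (Finset.empty_subset _)
  have hBn : B (p + n) = B p := hper p
  -- every label in `O` is visited after `f`
  have hOpos : ∀ i ∈ O, ∃ l, f ≤ l ∧ l < n ∧ i ∈ B (p + l) ∧ ¬ B (p + l) ⊆ {2} := by
    intro i hi
    obtain ⟨j, hj⟩ := hvis i (by simp [hi])
    obtain ⟨l, hl, hlj⟩ := exists_rel n p j
    have hil : i ∈ B (p + l) := by
      simp only [hBdef]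
      rw [hlj]
      exact hj
    have hi01 : i ∈ ({0, 1} : Finset (Fin 4)) := hO hi
    have hi2 : i ∉ ({2} : Finset (Fin 4)) := by
      intro h
      rw [Finset.mem_singleton] at h
      rw [h] at hi01
      exact absurd hi01 (by decide)
    have hi3 : i ∉ ({3} : Finset (Fin 4)) := by
      intro h
      rw [Finset.mem_singleton] at h
      rw [h] at hi01
      exact absurd hi01 (by decide)
    refine ⟨l, ?_, hl, hil, fun h => hi2 (h hil)⟩
    by_contra h
    exact hi3 (hf2 l (by omega) hil)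
  have hrot : ∀ s l : ℕ, rot (Fin.ofNat n s) A (Fin.ofNat n l) = B (s + l) := by
    intro s l
    simp only [hBdef, rot]
    rw [ofNat_add, Nat.add_comm]
  by_cases hcase : B (p + f) ⊆ {2}
  · -- order 3, 2, O
    right
    have h2f : 2 ∈ B (p + f) := nsub2 _ hcase hf1
    have hgex : ∃ l, f ≤ l ∧ l < n ∧ ¬ B (p + l) ⊆ {2} := by
      obtain ⟨i, hi⟩ := hOn
      obtain ⟨l, h1, h2, _, h4⟩ := hOpos i hi
      exact ⟨l, h1, h2, h4⟩
    obtain ⟨g, ⟨hg1, hg2, hg3⟩, hgmin⟩ : ∃ g, (f ≤ g ∧ g < n ∧ ¬ B (p + g) ⊆ {2}) ∧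
        ∀ l, l < g → ¬ (f ≤ l ∧ l < n ∧ ¬ B (p + l) ⊆ {2}) :=
      ⟨Nat.find hgex, Nat.find_spec hgex, fun m hm => Nat.find_min hgex hm⟩
    have hgf : f < g := by
      rcases Nat.eq_or_lt_of_le hg1 with h | h
      · rw [← h] at hg3
        exact absurd hcase hg3
      · exact h
    have hlow : ∀ l, f ≤ l → l < g → B (p + l) ⊆ {2} := by
      intro l h1 h2
      by_contra h
      exact hgmin l h2 ⟨h1, by omega, h⟩
    have hupp : ∀ l, g ≤ l → l < n → B (p + l) ⊆ {0, 1} := by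
      intro l h1 h2
      rcases hcol l (by omega) h2 with h | h
      · exact h
      · by_cases h2l : 2 ∈ B (p + l)
        · exfalso
          rcases Nat.eq_or_lt_of_le h1 with h4 | h4
          · rw [← h4] at h
            exact hg3 h
          · have := halt' {2} (by simp) (p + f) (p + g) (p + l) (p + n) (by omega) (by omega)
              (by omega) (by omega) (nd _ _ 2 h2f (by simp)) hg3 (nd _ _ 2 h2l (by simp))
            rw [hBn] at this
            exact absurd (this hp3) (by decide)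
        · rw [sub2 _ h h2l]
          exact Finset.empty_subset _
    refine ⟨Fin.ofNat n (p + f), g - f, n - f, by omega, by omega,
      ⟨⟨0, by omega, ?_⟩, fun l hl => ?_⟩, ⟨fun i hi => ?_, fun l h1 h2 => ?_⟩,
      ⟨n - f, le_refl _, by omega, ?_⟩, fun l h1 h2 => ?_⟩
    · rw [hrot, Nat.add_zero]
      exact h2f
    · rw [hrot, show p + f + l = p + (f + l) by omega]
      exact hlow _ (by omega) (by omega)
    · obtain ⟨l, h1, h2, h3, h4⟩ := hOpos i hi
      have hgl : g ≤ l := by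
        by_contra h
        exact h4 (hlow l h1 (by omega))
      refine ⟨l - f, by omega, by omega, ?_⟩
      rw [hrot, show p + f + (l - f) = p + l by omega]
      exact h3
    · rw [hrot, show p + f + l = p + (f + l) by omega]
      exact hupp _ (by omega) (by omega)
    · rw [hrot, show p + f + (n - f) = p + n by omega, hBn]
      exact hp3
    · rw [hrot, show p + f + l = p + (f + l - n) + n by omega, hper]
      exact hf2 _ (by omega)
  · -- order 3, O, 2
    left
    have hf01 : B (p + f) ⊆ {0, 1} := by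
      rcases hcol f (le_refl _) (by omega) with h | h
      · exact h
      · exact absurd h hcase
    have h2f : 2 ∉ B (p + f) := fun h => hcase (g2 _ h)
    have hgex : ∃ l, f ≤ l ∧ l < n ∧ 2 ∈ B (p + l) := ⟨q', hfq, hq'n, hq'2⟩
    obtain ⟨g, ⟨hg1, hg2, hg3⟩, hgmin⟩ : ∃ g, (f ≤ g ∧ g < n ∧ 2 ∈ B (p + g)) ∧
        ∀ l, l < g → ¬ (f ≤ l ∧ l < n ∧ 2 ∈ B (p + l)) :=
      ⟨Nat.find hgex, Nat.find_spec hgex, fun m hm => Nat.find_min hgex hm⟩
    have hgf : f < g := by
      rcases Nat.eq_or_lt_of_le hg1 with h | h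
      · rw [← h] at hg3
        exact absurd hg3 h2f
      · exact h
    have hlow : ∀ l, f ≤ l → l < g → B (p + l) ⊆ {0, 1} := by
      intro l h1 h2
      have h2l : 2 ∉ B (p + l) := fun h => hgmin l h2 ⟨h1, by omega, h⟩
      rcases hcol l h1 (by omega) with h | h
      · exact h
      · rw [sub2 _ h h2l]
        exact Finset.empty_subset _
    have hupp : ∀ l, g ≤ l → l < n → B (p + l) ⊆ {2} := by
      intro l h1 h2
      rcases Nat.eq_or_lt_of_le h1 with h4 | h4
      · rw [← h4]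
        exact g2 _ hg3
      · rcases hcol l (by omega) h2 with h | h
        · by_contra h5
          have hng : ¬ B (p + g) ⊆ {0, 1} := fun h => absurd (h hg3) (by decide)
          have := halt' {0, 1} (by simp) (p + f) (p + g) (p + l) (p + n) (by omega) (by omega)
            (by omega) (by omega) (ndis3 _ hf01 hf1) hng (ndis _ h h5)
          rw [hBn] at this
          exact absurd (this hp3) (by decide)
        · exact h
    refine ⟨Fin.ofNat n p, f, g, hgf, hg2,
      ⟨⟨0, hf0, ?_⟩, fun l hl => ?_⟩, ⟨fun i hi => ?_, fun l h1 h2 => ?_⟩,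
      ⟨g, le_refl _, hg2, ?_⟩, fun l h1 h2 => ?_⟩
    · rw [hrot, Nat.add_zero]
      exact hp3
    · rw [hrot]
      exact hf2 _ hl
    · obtain ⟨l, h1, h2, h3, h4⟩ := hOpos i hi
      have hgl : l < g := by
        by_contra h
        exact h4 (hupp l (by omega) h2)
      refine ⟨l, h1, hgl, ?_⟩
      rw [hrot]
      exact h3
    · rw [hrot]
      exact hlow _ h1 h2
    · rw [hrot]
      exact hg3
    · rw [hrot]
      exact hupp _ h1 h2

end Pool.Agent.XQ.K4.H93
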